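import Pool.Agent.X98.SY.Zero

set_option autoImplicit false

open Polynomial NumberField

namespace Pool.Agent.X98.SY

open Pool.Agent.W432.PC (ddx ddx_algebraMap ddx_X)

universe u v

lemma ratEigs_of_cond {K : Type u} [Field K] [NumberField K] {r n : ℕ}
    {b c : Matrix (Fin r) (Fin r) (𝓞 K)}
    (h : {P : Ideal (𝓞 K) | P.IsMaximal ∧ ¬ PCurvZero n b c P}.Finite) :
    RatEigs b ∧ RatEigs c ∧ RatEigs (b + c) :=
  ⟨fun σ β hβ => eig_rational h b (Or.inl rfl) σ β hβ,
    fun σ β hβ => eig_rational h c (Or.inr (Or.inl rfl)) σ β hβ,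
    fun σ β hβ => eig_rational h (b + c) (Or.inr (Or.inr rfl)) σ β hβ⟩

/-- Solutions with few zeros outside `0`, `1`, `∞` modulo one prime give algebraic solutions. -/
theorem radical_solutions {K : Type u} [Field K] [NumberField K] {r n : ℕ} (hn : 0 < n)
    (b c : Matrix (Fin r) (Fin r) (𝓞 K)) (hb : RatEigs b) (hc : RatEigs c)
    (hbc : RatEigs (b + c)) :
    ∃ C : ℕ, ∀ (p : ℕ) (k : Type v) [Field k] [CharP k p] (φ : 𝓞 K →+* k) (s : ℕ)
      (y : Fin s → Fin r → RatFunc k) (e₀ e₁ : Fin s → ℤ) (g : Fin s → Fin r → k[X]),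
      LinearIndependent (RatFunc k) y →
      (∀ j, Sys (Matrix.of fun i l => φ (b i l) / n) (Matrix.of fun i l => φ (c i l) / n) (y j)) →
      (∀ j i, y j i = RatFunc.X ^ e₀ j * (RatFunc.X - 1) ^ e₁ j *
        algebraMap k[X] (RatFunc k) (g j i)) →
      (∀ j i, C * ((g j i).natDegree + 1) < p) →
      ∀ σ : K →+* ℂ, AlgSols n b c σ s := by
  classical
  obtain ⟨N, A, hN, hcls⟩ := cls.{u, v} hn b c hb hc
  have hM : 0 < N * n := Nat.mul_pos hN hn
  -- the twisted matrices
  have haff : ∀ (m : Matrix (Fin r) (Fin r) (𝓞 K)), RatEigs m → ∀ i : ℕ,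
      Eig.{u, v} ((N : 𝓞 K) • m - (i : 𝓞 K) • (1 : Matrix (Fin r) (Fin r) (𝓞 K))) 1 := by
    intro m hm i
    have h1 := ratEigs_affine hm hN (i : ℤ)
    rw [Int.cast_natCast] at h1
    exact ratEigs_eig h1
  have hmain : ∀ cl : Fin (N * n) × Fin (N * n), ∃ C : ℕ, ∀ (p : ℕ) (k : Type v) [Field k]
      [CharP k p] (φ : 𝓞 K →+* k) (s : ℕ) (y : Fin s → Fin r → RatFunc k),
      LinearIndependent k y →
      (∀ j, Sys
        (Matrix.of fun i l => φ (((N : 𝓞 K) • b -
          ((cl.1 : ℕ) : 𝓞 K) • (1 : Matrix (Fin r) (Fin r) (𝓞 K)) :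
            Matrix (Fin r) (Fin r) (𝓞 K)) i l) / ((N * n : ℕ) : k))
        (Matrix.of fun i l => φ (((N : 𝓞 K) • c -
          ((cl.2 : ℕ) : 𝓞 K) • (1 : Matrix (Fin r) (Fin r) (𝓞 K)) :
            Matrix (Fin r) (Fin r) (𝓞 K)) i l) / ((N * n : ℕ) : k)) (y j)) →
      (∀ j i, C * (ht (y j i) + 1) ^ 1 < p) →
      ∃ z : Fin s → Fin r → RatFunc K, LinearIndependent (RatFunc K) z ∧
        ∀ j, Sys
          (Matrix.of fun i l => algebraMap (𝓞 K) K (((N : 𝓞 K) • b -
            ((cl.1 : ℕ) : 𝓞 K) • (1 : Matrix (Fin r) (Fin r) (𝓞 K)) :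
              Matrix (Fin r) (Fin r) (𝓞 K)) i l) / ((N * n : ℕ) : K))
          (Matrix.of fun i l => algebraMap (𝓞 K) K (((N : 𝓞 K) • c -
            ((cl.2 : ℕ) : 𝓞 K) • (1 : Matrix (Fin r) (Fin r) (𝓞 K)) :
              Matrix (Fin r) (Fin r) (𝓞 K)) i l) / ((N * n : ℕ) : K)) (z j) := by
    intro cl
    refine main.{u, v} hM _ _ 1 (fun _ => one_ne_zero) (haff b hb _) (haff c hc _) ?_
    have h1 := haff (b + c) hbc ((cl.1 : ℕ) + (cl.2 : ℕ))
    have h2 : (N : 𝓞 K) • (b + c) - (((cl.1 : ℕ) + (cl.2 : ℕ) : ℕ) : 𝓞 K) •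
        (1 : Matrix (Fin r) (Fin r) (𝓞 K)) =
        ((N : 𝓞 K) • b - ((cl.1 : ℕ) : 𝓞 K) • (1 : Matrix (Fin r) (Fin r) (𝓞 K))) +
        ((N : 𝓞 K) • c - ((cl.2 : ℕ) : 𝓞 K) • (1 : Matrix (Fin r) (Fin r) (𝓞 K))) := by
      rw [smul_add, Nat.cast_add, add_smul]
      abel
    rwa [h2] at h1
  choose C hC using hmain
  refine ⟨(∑ cl, C cl) * (A + 1) + N * n, ?_⟩
  intro p k _ _ φ s y e₀ e₁ g hind hsys hy hdeg σ
  have hy0 : ∀ j, y j ≠ 0 := fun j => hind.ne_zero j
  -- a common bound of the degrees for each solution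
  have hbd : ∀ j, ∃ h : ℕ, (∀ i, (g j i).natDegree ≤ h) ∧
      ((∑ cl, C cl) * (A + 1) + N * n) * (h + 1) < p := by
    intro j
    obtain ⟨i, hi⟩ := Function.ne_iff.mp (hy0 j)
    have hne : (Finset.univ : Finset (Fin r)).Nonempty := ⟨i, Finset.mem_univ _⟩
    obtain ⟨i₀, _, hi₀⟩ := Finset.exists_mem_eq_sup _ hne fun i => (g j i).natDegree
    refine ⟨Finset.univ.sup fun i => (g j i).natDegree, fun i =>
      Finset.le_sup (f := fun i => (g j i).natDegree) (Finset.mem_univ i), ?_⟩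
    rw [hi₀]
    exact hdeg j i₀
  choose h hh hhp using hbd
  have hnp : ∀ j : Fin s, N * n < p := by
    intro j
    have h1 := hhp j
    nlinarith [Nat.zero_le ((∑ cl, C cl) * (A + 1)), Nat.zero_le (h j)]
  choose cl α β hs hht using fun j => hcls p k φ (y j) (e₀ j) (e₁ j) (g j) (h j) (hnp j) (hy0 j)
    (hsys j) (hy j) (hh j)
  -- the solutions of each class
  have hex : ∀ c₀ : Fin (N * n) × Fin (N * n), ∃ z : {j // cl j = c₀} → Fin r → RatFunc K,
      LinearIndependent (RatFunc K) z ∧ ∀ j, Sys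
          (Matrix.of fun i l => algebraMap (𝓞 K) K (((N : 𝓞 K) • b -
            ((c₀.1 : ℕ) : 𝓞 K) • (1 : Matrix (Fin r) (Fin r) (𝓞 K)) :
              Matrix (Fin r) (Fin r) (𝓞 K)) i l) / ((N * n : ℕ) : K))
          (Matrix.of fun i l => algebraMap (𝓞 K) K (((N : 𝓞 K) • c -
            ((c₀.2 : ℕ) : 𝓞 K) • (1 : Matrix (Fin r) (Fin r) (𝓞 K)) :
              Matrix (Fin r) (Fin r) (𝓞 K)) i l) / ((N * n : ℕ) : K)) (z j) := by
    intro c₀
    let e := Fintype.equivFin {j // cl j = c₀}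
    have hX : (RatFunc.X : RatFunc k) ≠ 0 := X_ne
    have hX1 : (RatFunc.X - 1 : RatFunc k) ≠ 0 := X1_ne
    obtain ⟨z, hz1, hz2⟩ := hC c₀ p k φ (Fintype.card {j // cl j = c₀})
      (fun j i => RatFunc.X ^ α (e.symm j).1 * (RatFunc.X - 1) ^ β (e.symm j).1 *
        y (e.symm j).1 i) (by
          have h1 : LinearIndependent (RatFunc k) fun j : Fin (Fintype.card {j // cl j = c₀}) =>
              y (e.symm j).1 :=
            hind.comp (fun j => (e.symm j).1)
              (Subtype.val_injective.comp e.symm.injective)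
          have h2 : LinearIndependent (RatFunc k) fun (j : Fin (Fintype.card {j // cl j = c₀}))
              (i : Fin r) => RatFunc.X ^ α (e.symm j).1 * (RatFunc.X - 1) ^ β (e.symm j).1 *
                y (e.symm j).1 i := by
            rw [Fintype.linearIndependent_iff] at h1 ⊢
            intro γ hγ j
            have h3 := h1 (fun j => γ j * (RatFunc.X ^ α (e.symm j).1 *
              (RatFunc.X - 1) ^ β (e.symm j).1)) (by
                rw [← hγ]
                refine Finset.sum_congr rfl fun j _ => ?_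
                ext1 i
                rw [Pi.smul_apply, Pi.smul_apply, smul_eq_mul, smul_eq_mul]
                ring) j
            exact (mul_eq_zero.mp h3).resolve_right
              (mul_ne_zero (zpow_ne_zero _ hX) (zpow_ne_zero _ hX1))
          exact h2.restrict_scalars (by
            intro a a' haa
            simp only [Algebra.smul_def, mul_one] at haa
            exact (algebraMap k (RatFunc k)).injective haa))
      (fun j => by
        have h1 := hs (e.symm j).1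
        rw [(e.symm j).2] at h1
        exact h1)
      (fun j i => by
        have h1 := hht (e.symm j).1 i
        have h2 := hhp (e.symm j).1
        have h3 : C c₀ ≤ ∑ cl, C cl :=
          Finset.single_le_sum (f := C) (fun _ _ => Nat.zero_le _) (Finset.mem_univ c₀)
        rw [pow_one]
        refine lt_of_le_of_lt ?_ h2
        calc _ ≤ (∑ cl, C cl) * ((A + 1) * (h (e.symm j).1 + 1)) :=
              Nat.mul_le_mul h3 (by nlinarith [Nat.zero_le A, Nat.zero_le (h (e.symm j).1)])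
          _ ≤ _ := by nlinarith [Nat.zero_le (N * n * (h (e.symm j).1 + 1))])
    refine ⟨fun j => z (e j), hz1.comp _ e.injective, fun j => hz2 _⟩
  choose z hz1 hz2 using hex
  refine algSols_of_classes hn hN b c cl (fun j => z (cl j) ⟨j, rfl⟩) (fun j => hz2 (cl j) _)
    (fun c₀ => ?_) σ
  have h1 : (fun j : {j // cl j = c₀} => z (cl j.1) ⟨j.1, rfl⟩) = z c₀ := by
    funext ⟨j, hj⟩
    subst hj
    rfl
  rw [h1]
  exact hz1 c₀

end Pool.Agent.X98.SY
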