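import Pool.Agent.X98.SY.Cls
import Pool.Agent.X98.PC.Char0

set_option autoImplicit false

open Polynomial NumberField

namespace Pool.Agent.X98.SY

open Pool.Agent.W432.PC (ddx ddx_algebraMap ddx_X T Tc)
open Pool.Agent.W432.HK (exists_extend D_eval eval_inj)
open Pool.Agent.X98.PC (indep' const_algebraic ddxHom ddxHom_mul ddxHom_eq ddxHom_algebraMap)

universe u v

/-- Linear independence is preserved by field extensions. -/
lemma indep_map {F F' : Type*} [Field F] [Field F'] (f : F →+* F') {J : Type*} [Fintype J]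
    {r : ℕ} {z : J → Fin r → F} (hz : LinearIndependent F z) :
    LinearIndependent F' (fun j i => f (z j i)) := by
  classical
  let φ : (J → F) →ₗ[F] (Fin r → F) := Fintype.linearCombination F z
  have hker : LinearMap.ker φ = ⊥ := by
    rw [LinearMap.ker_eq_bot']
    intro g hg
    ext1 j
    exact Fintype.linearIndependent_iff.mp hz g hg j
  obtain ⟨g, hg⟩ := φ.exists_leftInverse_of_injective hker
  have hA : ∀ j j' : J, ∑ i, z j i * g (Pi.single i 1) j' = if j = j' then 1 else 0 := by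
    intro j j'
    have h1 := congrFun (congrArg (fun q => q (Pi.single j 1)) hg) j'
    simp only [LinearMap.comp_apply, LinearMap.id_apply] at h1
    have h2 : φ (Pi.single j 1) = ∑ i, z j i • (Pi.single i 1 : Fin r → F) := by
      simp only [φ]
      rw [Fintype.linearCombination_apply_single, one_smul]
      funext i
      simp [Finset.sum_apply, Pi.single_apply]
    rw [h2, map_sum, Finset.sum_apply] at h1
    simp only [map_smul, Pi.smul_apply, smul_eq_mul] at h1
    rw [h1, Pi.single_apply]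
    by_cases h : j = j'
    · rw [if_pos h, if_pos h.symm]
    · rw [if_neg h, if_neg (Ne.symm h)]
  rw [Fintype.linearIndependent_iff]
  intro c hc j'
  have h1 : ∑ j, c j * f (∑ i, z j i * g (Pi.single i 1) j') = 0 := by
    have h2 : ∀ i, ∑ j, c j * f (z j i) = 0 := by
      intro i
      have := congrFun hc i
      rw [Finset.sum_apply] at this
      exact this
    calc _ = ∑ i, (∑ j, c j * f (z j i)) * f (g (Pi.single i 1) j') := by
          simp only [map_sum, map_mul, Finset.mul_sum, Finset.sum_mul]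
          rw [Finset.sum_comm]
          refine Finset.sum_congr rfl fun i _ => Finset.sum_congr rfl fun j _ => ?_
          ring
      _ = 0 := Finset.sum_eq_zero fun i _ => by rw [h2 i, zero_mul]
  simp only [hA] at h1
  rw [Finset.sum_eq_single j'] at h1
  · simpa using h1
  · intro j _ hj
    rw [if_neg hj, map_zero, mul_zero]
  · intro h; exact absurd (Finset.mem_univ _) h

/-- A derivation of a field extension extending the derivation of polynomials. -/
lemma D_tau {k L : Type*} [Field k] [Field L] (D : L →+ L)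
    (hD : ∀ x y, D (x * y) = x * D y + y * D x) (τ : RatFunc k →+* L)
    (hτ : ∀ q : k[X], D (τ (algebraMap k[X] (RatFunc k) q)) =
      τ (algebraMap k[X] (RatFunc k) (derivative q)))
    (f : RatFunc k) : D (τ f) = τ (ddxHom k f) := by
  have hQ0 : algebraMap k[X] (RatFunc k) f.denom ≠ 0 := by
    rw [ne_eq, map_eq_zero_iff _ inj_alg]; exact RatFunc.denom_ne_zero f
  have h1 : f * algebraMap k[X] (RatFunc k) f.denom = algebraMap k[X] (RatFunc k) f.num := by
    have := RatFunc.num_div_denom f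
    rw [div_eq_iff hQ0] at this
    exact this.symm
  have h2 := congrArg (ddxHom k) h1
  rw [ddxHom_mul, ddxHom_algebraMap, ddxHom_algebraMap] at h2
  have h3 := congrArg (fun u => D (τ u)) h1
  simp only [map_mul] at h3
  rw [hD, hτ, hτ, ← h2, map_add, map_mul, map_mul] at h3
  have h4 := add_left_cancel h3
  exact mul_left_cancel₀ (by rw [ne_eq, map_eq_zero_iff _ τ.injective]; exact hQ0) h4

/-- The derivative of a radical. -/
lemma D_rad {L : Type*} [Field L] (D : L →+ L) (hD : ∀ x y, D (x * y) = x * D y + y * D x)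
    {x E : L} (hx : D x = 1) (hx0 : x ≠ 0) (hx1 : x - 1 ≠ 0) {M a b : ℕ}
    (hM : (M : L) ≠ 0) (hE0 : E ≠ 0) (hE : E ^ M = x ^ a * (x - 1) ^ b) :
    D E = ((a : L) / M / x + (b : L) / M / (x - 1)) * E := by
  have hD1 : D 1 = 0 := by
    have h1 := hD 1 1
    simp only [mul_one, one_mul] at h1
    simpa using h1
  have hpow : ∀ (a : L) (t : ℕ), a * D (a ^ t) = t * a ^ t * D a := by
    intro a t
    induction t with
    | zero => rw [pow_zero, hD1]; simp
    | succ t ih =>
      rw [pow_succ, hD, mul_add]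
      push_cast
      linear_combination a * ih
  have h1 := congrArg D hE
  have h2 := hpow E M
  have h3 := hpow x a
  have h4 := hpow (x - 1) b
  have h5 : D (x - 1) = 1 := by rw [map_sub, hx, hD1, sub_zero]
  rw [hx] at h3
  rw [h5] at h4
  rw [hD] at h1
  have h6 : x * (x - 1) * ((M : L) * E ^ M * D E) =
      E * ((a : L) * (x - 1) + (b : L) * x) * E ^ M := by
    rw [← h2, h1, hE]
    linear_combination E * (x - 1) * (x - 1) ^ b * h3 + E * x * x ^ a * h4
  have h7 : x * (x - 1) * ((M : L) * D E) = E * ((a : L) * (x - 1) + (b : L) * x) := by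
    apply mul_right_cancel₀ (pow_ne_zero M hE0)
    linear_combination h6
  field_simp
  linear_combination h7

lemma coeff_id {L : Type*} [Field L] {n N x : L} (hn : n ≠ 0) (hN : N ≠ 0) (hx0 : x ≠ 0)
    (hx1 : x - 1 ≠ 0) (β γ i l w : L) :
    (N * β - i * w) / (N * n) / x + (N * γ - l * w) / (N * n) / (x - 1) =
      β / n / x + γ / n / (x - 1) - (i / (N * n) / x + l / (N * n) / (x - 1)) * w := by
  field_simp
  ring

lemma rad_id {L : Type*} [Field L] {x : L} (hx0 : x ≠ 0) (hx1 : x - 1 ≠ 0) (a b E : L) :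
    x * (x - 1) * ((a / x + b / (x - 1)) * E) = (a * (x - 1) + b * x) * E := by
  field_simp

lemma exists_derivationC : ∃ D : Derivation ℂ (AlgebraicClosure (RatFunc ℂ))
    (AlgebraicClosure (RatFunc ℂ)),
    D (algebraMap (RatFunc ℂ) (AlgebraicClosure (RatFunc ℂ)) RatFunc.X) = 1 := by
  have h1 : Algebra.FormallyEtale ℂ[X] (RatFunc ℂ) :=
    Algebra.FormallyEtale.of_isLocalization (nonZeroDivisors ℂ[X])
  have h2 : Algebra.FormallyEtale (RatFunc ℂ) (AlgebraicClosure (RatFunc ℂ)) :=
    Algebra.FormallyEtale.of_isSeparable _ _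
  let d : Derivation ℂ ℂ[X] (RatFunc ℂ) :=
    (Algebra.linearMap ℂ[X] (RatFunc ℂ)).compDer (Polynomial.derivative' (R := ℂ))
  obtain ⟨D₁, hD₁⟩ := exists_extend ℂ ℂ[X] (RatFunc ℂ) d
  let d₂ : Derivation ℂ (RatFunc ℂ) (AlgebraicClosure (RatFunc ℂ)) :=
    (Algebra.linearMap (RatFunc ℂ) (AlgebraicClosure (RatFunc ℂ))).compDer D₁
  obtain ⟨D, hD⟩ := exists_extend ℂ (RatFunc ℂ) (AlgebraicClosure (RatFunc ℂ)) d₂
  refine ⟨D, ?_⟩
  rw [hD]
  show algebraMap _ _ (D₁ RatFunc.X) = 1
  rw [← RatFunc.algebraMap_X, hD₁]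
  show algebraMap _ _ (algebraMap ℂ[X] (RatFunc ℂ) (derivative X)) = 1
  simp

/-- An algebraic closure of `ℂ(x)`. -/
abbrev Cx : Type := AlgebraicClosure (RatFunc ℂ)

/-- `δ` is the derivation `d / dx` of the algebraic closure of `ℂ(x)`. -/
def IsDDX (δ : Derivation ℤ Cx Cx) : Prop :=
  (∀ z : ℂ, δ (algebraMap (RatFunc ℂ) Cx (algebraMap ℂ (RatFunc ℂ) z)) = 0) ∧
    δ (algebraMap (RatFunc ℂ) Cx RatFunc.X) = 1

/-- For the embedding `σ : K → ℂ`, the matrix `(b / n) / x + (c / n) / (x - 1)`. -/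
noncomputable def coefMat {K : Type u} [Field K] {r : ℕ} (n : ℕ)
    (b c : Matrix (Fin r) (Fin r) (𝓞 K)) (σ : K →+* ℂ) : Matrix (Fin r) (Fin r) Cx :=
  Matrix.of fun i j => algebraMap (RatFunc ℂ) Cx
    (algebraMap ℂ (RatFunc ℂ) (σ (b i j : K) / (n : ℂ)) / RatFunc.X +
      algebraMap ℂ (RatFunc ℂ) (σ (c i j : K) / (n : ℂ)) / (RatFunc.X - 1))

/-- For the embedding `σ : K → ℂ`, the system `f' = ((b / n) / x + (c / n) / (x - 1)) f` has `s`
algebraic solutions, linearly independent over the algebraic closure of `ℂ(x)` (hence over `ℂ`),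
whose entries are roots of rational functions. -/
def AlgSols {K : Type u} [Field K] {r : ℕ} (n : ℕ) (b c : Matrix (Fin r) (Fin r) (𝓞 K))
    (σ : K →+* ℂ) (s : ℕ) : Prop :=
  ∃ (δ : Derivation ℤ Cx Cx) (F : Matrix (Fin r) (Fin s) Cx),
    IsDDX δ ∧ LinearIndependent Cx F.col ∧ F.map (fun x => δ x) = coefMat n b c σ * F ∧
    ∃ N : ℕ, 0 < N ∧ ∀ i j, ∃ R : RatFunc ℂ, F i j ^ N = algebraMap (RatFunc ℂ) Cx R

/-- For the embedding `σ`, the system has a full set of algebraic solutions (as in `S00203`). -/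
def FullAlgSols {K : Type u} [Field K] {r : ℕ} (n : ℕ) (b c : Matrix (Fin r) (Fin r) (𝓞 K))
    (σ : K →+* ℂ) : Prop :=
  ∃ (δ : Derivation ℤ Cx Cx) (F : Matrix (Fin r) (Fin r) Cx),
    IsDDX δ ∧ F.det ≠ 0 ∧ F.map (fun x => δ x) = coefMat n b c σ * F

/-- If `s = r`, this is a full set of algebraic solutions. -/
lemma AlgSols.full {K : Type u} [Field K] {r n : ℕ} {b c : Matrix (Fin r) (Fin r) (𝓞 K)}
    {σ : K →+* ℂ} (h : AlgSols n b c σ r) : FullAlgSols n b c σ := by
  obtain ⟨δ, F, h1, h3, h4, _⟩ := h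
  refine ⟨δ, F, h1, ?_, h4⟩
  have h5 := Matrix.linearIndependent_cols_iff_isUnit.mp h3
  rw [Matrix.isUnit_iff_isUnit_det] at h5
  exact h5.ne_zero

/-- The full set of algebraic solutions is the one of the frozen statement. -/
lemma fullAlgSols_iff {K : Type u} [Field K] {r n : ℕ} {b c : Matrix (Fin r) (Fin r) (𝓞 K)}
    {σ : K →+* ℂ} : FullAlgSols n b c σ ↔
    ∃ (δ : Derivation ℤ (AlgebraicClosure (RatFunc ℂ)) (AlgebraicClosure (RatFunc ℂ)))
        (F : Matrix (Fin r) (Fin r) (AlgebraicClosure (RatFunc ℂ))),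
        (∀ z : ℂ, δ (algebraMap (RatFunc ℂ) (AlgebraicClosure (RatFunc ℂ))
            (algebraMap ℂ (RatFunc ℂ) z)) = 0) ∧
        δ (algebraMap (RatFunc ℂ) (AlgebraicClosure (RatFunc ℂ)) RatFunc.X) = 1 ∧
        F.det ≠ 0 ∧
        F.map (fun x => δ x) =
          (Matrix.of fun i j => algebraMap (RatFunc ℂ) (AlgebraicClosure (RatFunc ℂ))
            (algebraMap ℂ (RatFunc ℂ) (σ (b i j : K) / (n : ℂ)) / RatFunc.X +
             algebraMap ℂ (RatFunc ℂ) (σ (c i j : K) / (n : ℂ)) / (RatFunc.X - 1))) * F := by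
  refine exists_congr fun δ => exists_congr fun F => ?_
  exact and_assoc

/-- Solutions of twisted systems, independent in each class, give algebraic solutions. -/
theorem algSols_of_classes {K : Type u} [Field K] [NumberField K] {r n N s : ℕ} (hn : 0 < n)
    (hN : 0 < N) (b c : Matrix (Fin r) (Fin r) (𝓞 K)) (cl : Fin s → Fin (N * n) × Fin (N * n))
    (z : Fin s → Fin r → RatFunc K)
    (hz : ∀ j, Sys
      (Matrix.of fun i l => algebraMap (𝓞 K) K (((N : 𝓞 K) • b -
        (((cl j).1 : ℕ) : 𝓞 K) • (1 : Matrix (Fin r) (Fin r) (𝓞 K)) :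
          Matrix (Fin r) (Fin r) (𝓞 K)) i l) / ((N * n : ℕ) : K))
      (Matrix.of fun i l => algebraMap (𝓞 K) K (((N : 𝓞 K) • c -
        (((cl j).2 : ℕ) : 𝓞 K) • (1 : Matrix (Fin r) (Fin r) (𝓞 K)) :
          Matrix (Fin r) (Fin r) (𝓞 K)) i l) / ((N * n : ℕ) : K)) (z j))
    (hind : ∀ c, LinearIndependent (RatFunc K) (fun j : {j // cl j = c} => z j.1))
    (σ : K →+* ℂ) : AlgSols n b c σ s := by
  classical
  obtain ⟨Δ, hΔ1⟩ := exists_derivationC
  let L := AlgebraicClosure (RatFunc ℂ)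
  let ι : ℂ →+* L := (algebraMap (RatFunc ℂ) L).comp (algebraMap ℂ (RatFunc ℂ))
  let x : L := algebraMap (RatFunc ℂ) L RatFunc.X
  let D : L →+ L := Δ.toLinearMap.toAddMonoidHom
  have hD : ∀ u v, D (u * v) = u * D v + v * D u := fun u v => Δ.leibniz u v
  have hx : D x = 1 := hΔ1
  have hι : ∀ c, D (ι c) = 0 := by
    intro c
    have h1 : ι c = algebraMap ℂ L c := (IsScalarTower.algebraMap_apply ℂ (RatFunc ℂ) L c).symm
    rw [h1]
    exact Δ.map_algebraMap c
  have hchar : CharZero L := charZero_of_injective_algebraMap (algebraMap ℂ L).injective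
  have hpolyC : ∀ q : ℂ[X], algebraMap (RatFunc ℂ) L (algebraMap ℂ[X] (RatFunc ℂ) q) =
      q.eval₂ ι x := by
    intro q
    induction q using Polynomial.induction_on' with
    | add p q hp hq => rw [map_add, map_add, hp, hq, eval₂_add]
    | monomial t a =>
      rw [← C_mul_X_pow_eq_monomial, map_mul, map_mul, map_pow, map_pow, RatFunc.algebraMap_X,
        eval₂_mul, eval₂_C, eval₂_pow, eval₂_X]
      rfl
  have hDC : ∀ f : RatFunc ℂ, D (algebraMap (RatFunc ℂ) L f) =
      algebraMap (RatFunc ℂ) L (ddxHom ℂ f) := by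
    intro f
    refine D_tau D hD (algebraMap (RatFunc ℂ) L) (fun q => ?_) f
    rw [hpolyC, hpolyC, D_eval D hD ι x hx hι]
  -- constants
  have hconst : ∀ a : L, D a = 0 → ∃ d : ℂ, a = ι d := by
    intro a ha
    obtain ⟨q, hq0, hq⟩ := const_algebraic D hD hDC ha
      ((AlgebraicClosure.isAlgebraic (RatFunc ℂ)).isAlgebraic a)
    have hcomp : ((algebraMap (RatFunc ℂ) L).comp ((algebraMap ℂ[X] (RatFunc ℂ)).comp C)) = ι := by
      ext w
      rfl
    rw [hcomp] at hq
    have h2 := (IsAlgClosed.splits q).eq_prod_roots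
    rw [h2, eval₂_mul, eval₂_C, ← eval_map, Polynomial.map_multiset_prod, eval_multiset_prod] at hq
    have h3 : ι q.leadingCoeff ≠ 0 := by
      rw [ne_eq, map_eq_zero]
      exact leadingCoeff_ne_zero.mpr hq0
    have h4 := (mul_eq_zero.mp hq).resolve_left h3
    rw [Multiset.prod_eq_zero_iff] at h4
    simp only [Multiset.map_map, Multiset.mem_map, Function.comp_apply] at h4
    obtain ⟨r, -, hr⟩ := h4
    refine ⟨r, ?_⟩
    simp only [Polynomial.map_sub, map_X, map_C, eval_sub, eval_X, eval_C] at hr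
    exact sub_eq_zero.mp hr
  -- the map of the rational functions
  let τ₀ : RatFunc K →+* RatFunc ℂ := IsFractionRing.lift (A := K[X]) (K := RatFunc K)
    (g := (algebraMap ℂ[X] (RatFunc ℂ)).comp (Polynomial.mapRingHom σ))
    (inj_alg.comp (Polynomial.map_injective σ σ.injective))
  have hτ₀ : ∀ q : K[X], τ₀ (algebraMap K[X] (RatFunc K) q) =
      algebraMap ℂ[X] (RatFunc ℂ) (q.map σ) := fun q => IsFractionRing.lift_algebraMap _ q
  let τ : RatFunc K →+* L := (algebraMap (RatFunc ℂ) L).comp τ₀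
  have hτ : ∀ q : K[X], τ (algebraMap K[X] (RatFunc K) q) = (q.map σ).eval₂ ι x := by
    intro q
    show algebraMap (RatFunc ℂ) L (τ₀ _) = _
    rw [hτ₀, hpolyC]
  have hDτ : ∀ f, D (τ f) = τ (ddxHom K f) := by
    intro f
    refine D_tau D hD τ (fun q => ?_) f
    rw [hτ, hτ, D_eval D hD ι x hx hι, derivative_map]
  have hτX : τ RatFunc.X = x := by
    rw [← RatFunc.algebraMap_X, hτ, map_X, eval₂_X]
  have hτC : ∀ a : K, τ (RatFunc.C a) = ι (σ a) := by
    intro a
    rw [← RatFunc.algebraMap_C, hτ, map_C, eval₂_C]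
  have hx0 : x ≠ 0 := by
    intro h0
    rw [h0, map_zero] at hx
    exact zero_ne_one hx
  have hx1 : x - 1 ≠ 0 := by
    intro h0
    have h1 := congrArg D h0
    have h2 : D 1 = 0 := by
      have := hι 1
      rwa [map_one] at this
    rw [map_sub, hx, h2, sub_zero, map_zero] at h1
    exact one_ne_zero h1
  -- the radicals
  have hM : 0 < N * n := Nat.mul_pos hN hn
  have hML : ((N * n : ℕ) : L) ≠ 0 := by exact_mod_cast hM.ne'
  have hrad : ∀ e : Fin (N * n) × Fin (N * n), ∃ E : L, E ≠ 0 ∧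
      E ^ (N * n) = x ^ (e.1 : ℕ) * (x - 1) ^ (e.2 : ℕ) ∧
      D E = (((e.1 : ℕ) : L) / ((N * n : ℕ) : L) / x +
        ((e.2 : ℕ) : L) / ((N * n : ℕ) : L) / (x - 1)) * E := by
    intro e
    obtain ⟨E, hE⟩ := IsAlgClosed.exists_pow_nat_eq (x ^ (e.1 : ℕ) * (x - 1) ^ (e.2 : ℕ)) hM
    have hR0 : x ^ (e.1 : ℕ) * (x - 1) ^ (e.2 : ℕ) ≠ 0 :=
      mul_ne_zero (pow_ne_zero _ hx0) (pow_ne_zero _ hx1)
    have hE0 : E ≠ 0 := by
      rintro rfl
      rw [zero_pow hM.ne'] at hE
      exact hR0 hE.symm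
    exact ⟨E, hE0, hE, D_rad D hD hx hx0 hx1 hML hE0 hE⟩
  choose E hE0 hEpow hDE using hrad
  let F : Fin s → Fin r → L := fun j i => E (cl j) * τ (z j i)
  -- the equation
  have heq : ∀ j i, D (F j i) = ∑ l, algebraMap (RatFunc ℂ) L
      (algebraMap ℂ (RatFunc ℂ) (σ (b i l : K) / (n : ℂ)) / RatFunc.X +
        algebraMap ℂ (RatFunc ℂ) (σ (c i l : K) / (n : ℂ)) / (RatFunc.X - 1)) * F j l := by
    intro j i
    have h1 : D (F j i) = E (cl j) * D (τ (z j i)) + τ (z j i) * D (E (cl j)) := hD _ _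
    rw [h1, hDτ, ddxHom_eq, hz j i, hDE, map_sum, Finset.mul_sum]
    have hnK : (n : K) ≠ 0 := by exact_mod_cast hn.ne'
    have hNK : (N : K) ≠ 0 := by exact_mod_cast hN.ne'
    have hnL : (n : L) ≠ 0 := by exact_mod_cast hn.ne'
    have hNL : (N : L) ≠ 0 := by exact_mod_cast hN.ne'
    have h2 : ∀ l, τ ((RatFunc.C ((Matrix.of fun i l => algebraMap (𝓞 K) K (((N : 𝓞 K) • b -
        (((cl j).1 : ℕ) : 𝓞 K) • (1 : Matrix (Fin r) (Fin r) (𝓞 K)) :
          Matrix (Fin r) (Fin r) (𝓞 K)) i l) / ((N * n : ℕ) : K)) i l) / RatFunc.X +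
        RatFunc.C ((Matrix.of fun i l => algebraMap (𝓞 K) K (((N : 𝓞 K) • c -
        (((cl j).2 : ℕ) : 𝓞 K) • (1 : Matrix (Fin r) (Fin r) (𝓞 K)) :
          Matrix (Fin r) (Fin r) (𝓞 K)) i l) / ((N * n : ℕ) : K)) i l) / (RatFunc.X - 1)) *
          z j l) =
        (ι (σ (b i l : K)) / n / x + ι (σ (c i l : K)) / n / (x - 1) -
          (((cl j).1 : ℕ) / ((N * n : ℕ) : L) / x + ((cl j).2 : ℕ) / ((N * n : ℕ) : L) / (x - 1)) *
            (if i = l then 1 else 0)) * τ (z j l) := by
      intro l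
      rw [map_mul, map_add, map_div₀, map_div₀, map_sub, map_one, hτX, hτC, hτC,
        Matrix.of_apply, Matrix.of_apply, Matrix.sub_apply, Matrix.sub_apply,
        Matrix.smul_apply, Matrix.smul_apply, Matrix.smul_apply, Matrix.smul_apply,
        Matrix.one_apply]
      have h6 : ∀ a : ℕ, ∀ β : 𝓞 K, ι (σ (algebraMap (𝓞 K) K ((N : 𝓞 K) • β -
          (a : 𝓞 K) • (if i = l then (1 : 𝓞 K) else 0)) / ((N * n : ℕ) : K))) =
          ((N : L) * ι (σ (β : K)) - (a : L) * (if i = l then 1 else 0)) / ((N : L) * n) := by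
        intro a β
        simp only [map_div₀, map_sub, map_mul, map_natCast, smul_eq_mul, Nat.cast_mul]
        split_ifs
        · simp only [map_one]
        · simp only [map_zero]
      have hc : ((N * n : ℕ) : L) = (N : L) * n := Nat.cast_mul N n
      rw [h6, h6, coeff_id hnL hNL hx0 hx1, hc]
    have h3 : ∀ l, algebraMap (RatFunc ℂ) L
        (algebraMap ℂ (RatFunc ℂ) (σ (b i l : K) / (n : ℂ)) / RatFunc.X +
          algebraMap ℂ (RatFunc ℂ) (σ (c i l : K) / (n : ℂ)) / (RatFunc.X - 1)) =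
        ι (σ (b i l : K)) / n / x + ι (σ (c i l : K)) / n / (x - 1) := by
      intro l
      simp only [map_add, map_div₀, map_sub, map_one, map_natCast]
      rfl
    simp only [h2, h3]
    have h4 : ∀ w : L, ∑ l, (w * (if i = l then 1 else 0)) * τ (z j l) = w * τ (z j i) := by
      intro w
      rw [Finset.sum_eq_single i]
      · simp
      · intro l _ hl
        rw [if_neg (Ne.symm hl)]; simp
      · intro h; exact absurd (Finset.mem_univ _) h
    have h5 : ∑ l, E (cl j) * ((ι (σ (b i l : K)) / n / x + ι (σ (c i l : K)) / n / (x - 1) -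
          (((cl j).1 : ℕ) / ((N * n : ℕ) : L) / x + ((cl j).2 : ℕ) / ((N * n : ℕ) : L) / (x - 1)) *
            (if i = l then 1 else 0)) * τ (z j l)) =
        ∑ l, (ι (σ (b i l : K)) / n / x + ι (σ (c i l : K)) / n / (x - 1)) * F j l -
        E (cl j) * ∑ l, ((((cl j).1 : ℕ) / ((N * n : ℕ) : L) / x +
          ((cl j).2 : ℕ) / ((N * n : ℕ) : L) / (x - 1)) * (if i = l then 1 else 0)) *
            τ (z j l) := by
      rw [Finset.mul_sum, ← Finset.sum_sub_distrib]
      refine Finset.sum_congr rfl fun l _ => ?_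
      show _ = _ * (E (cl j) * τ (z j l)) - _
      ring
    rw [h5, h4]
    ring
  -- independence
  have hindep : ∀ γ : Fin s → L, (∀ i, ∑ j, γ j * F j i = 0) → γ = 0 := by
    refine indep_const D hD _ F heq fun γ hγ hsum => ?_
    choose d hd using fun j => hconst (γ j) (hγ j)
    -- a common denominator
    obtain ⟨Q, hQ⟩ := IsLocalization.exist_integer_multiples_of_finset (nonZeroDivisors K[X])
      (Finset.univ.image fun ij : Fin s × Fin r => z ij.1 ij.2)
    have hP : ∀ j i, ∃ P : K[X], algebraMap K[X] (RatFunc K) P =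
        algebraMap K[X] (RatFunc K) Q * z j i := by
      intro j i
      obtain ⟨a, ha⟩ := hQ (z j i) (Finset.mem_image.mpr ⟨(j, i), Finset.mem_univ _, rfl⟩)
      exact ⟨a, by rw [ha, Algebra.smul_def]⟩
    choose P hP using hP
    have hQ0 : (Q : K[X]) ≠ 0 := nonZeroDivisors.ne_zero Q.2
    have hτQ : τ (algebraMap K[X] (RatFunc K) Q) ≠ 0 := by
      rw [ne_eq, map_eq_zero_iff _ τ.injective, map_eq_zero_iff _ inj_alg]
      exact hQ0
    have hsplit : ∀ g : Fin s → L, ∑ j, g j =
        ∑ ν : {ν // ν ∈ Finset.univ.image cl},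
          ∑ j ∈ Finset.univ.filter (fun j => cl j = ν.1), g j := by
      intro g
      rw [← Finset.sum_fiberwise_of_maps_to (s := Finset.univ) (t := Finset.univ.image cl)
        (g := cl) (fun j _ => Finset.mem_image_of_mem _ (Finset.mem_univ j)) g]
      rw [← Finset.sum_coe_sort (Finset.univ.image cl)
        (fun ν => ∑ j ∈ Finset.univ.filter (fun j => cl j = ν), g j)]
    have hT : (T (![0, 1] : Fin 2 → ℂ)).eval₂ ι x = x * (x - 1) := by
      unfold T
      rw [Fin.prod_univ_two]
      simp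
    have hTc0 : (Tc (![0, 1] : Fin 2 → ℂ) 0).eval₂ ι x = x - 1 := by
      unfold Tc
      rw [show (Finset.univ : Finset (Fin 2)).erase 0 = {1} by decide, Finset.prod_singleton]
      simp
    have hTc1 : (Tc (![0, 1] : Fin 2 → ℂ) 1).eval₂ ι x = x := by
      unfold Tc
      rw [show (Finset.univ : Finset (Fin 2)).erase 1 = {0} by decide, Finset.prod_singleton]
      simp
    have hMC : ((N * n : ℕ) : ℂ) ≠ 0 := by exact_mod_cast hM.ne'
    have hα : Function.Injective (![0, 1] : Fin 2 → ℂ) := by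
      intro a b hab
      fin_cases a <;> fin_cases b <;> simp at hab ⊢
    have hcls : ∀ (i : Fin r) (ν : {ν // ν ∈ Finset.univ.image cl}),
        ∑ j ∈ Finset.univ.filter (fun j => cl j = ν.1), C (d j) * (P j i).map σ = 0 := by
      intro i ν₀
      have h1 := indep' D hD ι x hx hι hα
        (fun (ν : {ν // ν ∈ Finset.univ.image cl}) (l : Fin 2) =>
          (![((ν.1.1 : ℕ) : ℂ) / ((N * n : ℕ) : ℂ), ((ν.1.2 : ℕ) : ℂ) / ((N * n : ℕ) : ℂ)] :
            Fin 2 → ℂ) l)
        (by
          intro ν ν' hne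
          have hne' : ν.1.1 ≠ ν'.1.1 ∨ ν.1.2 ≠ ν'.1.2 := by
            by_contra hcon
            push Not at hcon
            exact hne (Subtype.ext (Prod.ext hcon.1 hcon.2))
          have key : ∀ a a' : Fin (N * n), a ≠ a' → ∀ w : ℤ,
              ((a : ℕ) : ℂ) / ((N * n : ℕ) : ℂ) - ((a' : ℕ) : ℂ) / ((N * n : ℕ) : ℂ) ≠ w := by
            intro a a' haa w hw
            rw [← sub_div, div_eq_iff hMC] at hw
            have h2 : ((a : ℕ) : ℤ) - ((a' : ℕ) : ℤ) = w * ((N * n : ℕ) : ℤ) := by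
              exact_mod_cast hw
            have h3 := a.isLt
            have h4 := a'.isLt
            have h5 : w = 0 := by
              by_contra hw0
              have h6 : ((N * n : ℕ) : ℤ) ≤ |w * ((N * n : ℕ) : ℤ)| := by
                rw [abs_mul, Nat.abs_cast]
                have : 1 ≤ |w| := Int.one_le_abs hw0
                nlinarith [Int.natCast_nonneg (N * n)]
              rw [← h2, le_abs] at h6
              omega
            rw [h5, zero_mul] at h2
            exact haa (Fin.ext (by omega))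
          rcases hne' with h | h
          · exact ⟨0, fun w => key _ _ h w⟩
          · exact ⟨1, fun w => key _ _ h w⟩)
        (fun ν => E ν.1)
        (fun ν => by
          rw [hT, Fin.sum_univ_two, eval₂_add, eval₂_mul, eval₂_mul, hTc0, hTc1, eval₂_C, eval₂_C,
            hDE]
          simp only [Matrix.cons_val_zero, Matrix.cons_val_one, map_div₀, map_natCast]
          exact rad_id hx0 hx1 _ _ _)
        (fun ν => ∑ j ∈ Finset.univ.filter (fun j => cl j = ν.1), C (d j) * (P j i).map σ) (by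
          have h2 : ∑ j, τ (algebraMap K[X] (RatFunc K) Q) * (γ j * F j i) = 0 := by
            rw [← Finset.mul_sum, hsum i, mul_zero]
          rw [← h2, hsplit]
          refine Finset.sum_congr rfl fun ν _ => ?_
          rw [eval₂_finsetSum, Finset.sum_mul]
          refine Finset.sum_congr rfl fun j hj => ?_
          have h5 := (Finset.mem_filter.mp hj).2
          rw [eval₂_mul, eval₂_C, ← hd j, ← hτ, hP, map_mul]
          show _ = _ * (_ * (E (cl j) * τ (z j i)))
          rw [h5]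
          ring)
      exact (h1 ν₀).resolve_right (hE0 _)
    ext1 j₀
    have h1 := indep_map τ (hind (cl j₀))
    rw [Fintype.linearIndependent_iff] at h1
    have h2 := h1 (fun j => γ j.1) (by
      ext1 i
      rw [Finset.sum_apply, Pi.zero_apply]
      have h3 := hcls i ⟨cl j₀, Finset.mem_image_of_mem _ (Finset.mem_univ j₀)⟩
      apply mul_left_cancel₀ hτQ
      rw [mul_zero, Finset.mul_sum]
      have h4 := congrArg (Polynomial.eval₂ ι x) h3
      rw [eval₂_finsetSum, eval₂_zero] at h4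
      rw [← h4]
      symm
      rw [← Finset.sum_subtype_eq_sum_filter]
      have h6 : (Finset.univ.subtype fun j => cl j = cl j₀) =
          (Finset.univ : Finset {j // cl j = cl j₀}) := by
        ext j
        simp
      rw [h6]
      refine Finset.sum_congr rfl fun j _ => ?_
      rw [eval₂_mul, eval₂_C, ← hd j.1, ← hτ, hP, map_mul, Pi.smul_apply, smul_eq_mul]
      ring)
    exact h2 ⟨j₀, rfl⟩
  refine ⟨Δ.restrictScalars ℤ, Matrix.of fun i j => F j i, ⟨fun w => hι w, hΔ1⟩, ?_, ?_, N * n, hM,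
    fun i j => ?_⟩
  · rw [Fintype.linearIndependent_iff]
    intro g hg
    have h1 := hindep g fun i => by
      have := congrFun hg i
      rw [Finset.sum_apply] at this
      exact this
    intro j
    exact congrFun h1 j
  · ext i j
    exact heq j i
  · refine ⟨RatFunc.X ^ ((cl j).1 : ℕ) * (RatFunc.X - 1) ^ ((cl j).2 : ℕ) *
      τ₀ (z j i) ^ (N * n), ?_⟩
    show (E (cl j) * τ (z j i)) ^ (N * n) = _
    rw [mul_pow, hEpow, map_mul, map_mul, map_pow, map_pow, map_pow, map_sub, map_one]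
    rfl

end Pool.Agent.X98.SY
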