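import Pool.Agent.X98.SY.Tws

set_option autoImplicit false

open Polynomial NumberField

namespace Pool.Agent.X98.SY

open Pool.Agent.W432.PC (ddx ddx_algebraMap ddx_X)

universe u v

/-- Extracting the powers of `t` and `t - 1`. -/
lemma extract {k : Type*} [Field k] {r : ℕ} (g : Fin r → k[X]) (hg : g ≠ 0) :
    ∃ (a b : ℕ) (g' : Fin r → k[X]), (∀ i, g i = X ^ a * (X - 1) ^ b * g' i) ∧
      (∀ i, (g' i).natDegree ≤ (g i).natDegree) ∧ (fun i => (g' i).eval 0) ≠ 0 ∧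
      (fun i => (g' i).eval 1) ≠ 0 := by
  classical
  have hX1' : (X - 1 : k[X]) ≠ 0 := X_sub_C_ne_zero (1 : k)
  induction hD : ∑ i, (g i).natDegree using Nat.strong_induction_on generalizing g with
  | _ D ih =>
    subst hD
    -- dividing by a common factor of degree one
    have hstep : ∀ P : k[X], P.natDegree = 1 → (∀ i, P ∣ g i) → ∃ g1 : Fin r → k[X],
        (∀ i, g i = P * g1 i) ∧ g1 ≠ 0 ∧ ∑ i, (g1 i).natDegree < ∑ i, (g i).natDegree ∧
        ∀ i, (g1 i).natDegree ≤ (g i).natDegree := by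
      intro P hP hdvd
      have hP0 : P ≠ 0 := by
        rintro rfl
        simp at hP
      choose g1 hg1 using hdvd
      have hle : ∀ i, (g1 i).natDegree ≤ (g i).natDegree := by
        intro i
        by_cases h0 : g1 i = 0
        · rw [h0]; simp
        · rw [hg1 i, natDegree_mul hP0 h0]; omega
      refine ⟨g1, hg1, ?_, ?_, hle⟩
      · rintro rfl
        apply hg
        ext1 i
        show g i = 0
        rw [hg1 i]
        simp
      · obtain ⟨i, hi⟩ := Function.ne_iff.mp hg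
        refine Finset.sum_lt_sum (fun i _ => hle i) ⟨i, Finset.mem_univ _, ?_⟩
        have h0 : g1 i ≠ 0 := by
          intro h0
          apply hi
          rw [hg1 i, h0, mul_zero, Pi.zero_apply]
        rw [hg1 i, natDegree_mul hP0 h0]
        omega
    by_cases h0 : (fun i => (g i).eval 0) = 0
    · obtain ⟨g1, hg1, hg10, hlt, hle⟩ := hstep X natDegree_X (fun i => by
        rw [X_dvd_iff, coeff_zero_eq_eval_zero]
        exact congrFun h0 i)
      obtain ⟨a, b, g', h1, h2, h3, h4⟩ := ih _ hlt g1 hg10 rfl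
      refine ⟨a + 1, b, g', fun i => ?_, fun i => (h2 i).trans (hle i), h3, h4⟩
      rw [hg1 i, h1 i]
      ring
    · by_cases h1 : (fun i => (g i).eval 1) = 0
      · obtain ⟨g1, hg1, hg10, hlt, hle⟩ := hstep (X - 1) (natDegree_X_sub_C (1 : k)) (fun i => by
          have h4 : (X - Polynomial.C 1) ∣ g i := dvd_iff_isRoot.mpr (congrFun h1 i)
          rwa [map_one] at h4)
        obtain ⟨a, b, g', h1, h2, h3, h4⟩ := ih _ hlt g1 hg10 rfl
        refine ⟨a, b + 1, g', fun i => ?_, fun i => (h2 i).trans (hle i), h3, h4⟩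
        rw [hg1 i, h1 i]
        ring
      · exact ⟨0, 0, g, fun i => by simp, fun i => le_rfl, h0, h1⟩

/-- Solutions `t ^ e₀ (t - 1) ^ e₁ g` become solutions of small height of a twisted system. -/
theorem cls {K : Type u} [Field K] [NumberField K] {r n : ℕ} (hn : 0 < n)
    (b c : Matrix (Fin r) (Fin r) (𝓞 K)) (hb : RatEigs b) (hc : RatEigs c) :
    ∃ N A : ℕ, 0 < N ∧ ∀ (p : ℕ) (k : Type v) [Field k] [CharP k p] (φ : 𝓞 K →+* k)
      (y : Fin r → RatFunc k) (e₀ e₁ : ℤ) (g : Fin r → k[X]) (h : ℕ), N * n < p → y ≠ 0 →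
      Sys (Matrix.of fun i l => φ (b i l) / n) (Matrix.of fun i l => φ (c i l) / n) y →
      (∀ i, y i = RatFunc.X ^ e₀ * (RatFunc.X - 1) ^ e₁ * algebraMap k[X] (RatFunc k) (g i)) →
      (∀ i, (g i).natDegree ≤ h) →
      ∃ (cl : Fin (N * n) × Fin (N * n)) (α β : ℤ),
        Sys (Matrix.of fun i l => φ (((N : 𝓞 K) • b -
            ((cl.1 : ℕ) : 𝓞 K) • (1 : Matrix (Fin r) (Fin r) (𝓞 K)) :
              Matrix (Fin r) (Fin r) (𝓞 K)) i l) / ((N * n : ℕ) : k))
          (Matrix.of fun i l => φ (((N : 𝓞 K) • c -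
            ((cl.2 : ℕ) : 𝓞 K) • (1 : Matrix (Fin r) (Fin r) (𝓞 K)) :
              Matrix (Fin r) (Fin r) (𝓞 K)) i l) / ((N * n : ℕ) : k))
          (fun j => RatFunc.X ^ α * (RatFunc.X - 1) ^ β * y j) ∧
        ∀ j, ht (RatFunc.X ^ α * (RatFunc.X - 1) ^ β * y j) ≤ A + h := by
  classical
  obtain ⟨N1, A1, hN1, h1⟩ := eig_form.{u, v} hb
  obtain ⟨N2, A2, hN2, h2⟩ := eig_form.{u, v} hc
  have hN0 : 0 < (N1 * N2).natAbs := Int.natAbs_pos.mpr (mul_ne_zero hN1 hN2)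
  refine ⟨(N1 * N2).natAbs, (N2.natAbs * A1 + 1) + (N1.natAbs * A2 + 1), hN0, ?_⟩
  intro p k _ _ φ y e₀ e₁ g h hp hy0 hsys hy hgh
  set N := (N1 * N2).natAbs with hN
  have hM : 0 < N * n := Nat.mul_pos hN0 hn
  have hcast : ∀ m : ℕ, 0 < m → m ≤ N * n → (m : k) ≠ 0 := by
    intro m hm hm'
    rw [ne_eq, CharP.cast_eq_zero_iff k p]
    intro h5
    exact absurd (Nat.le_of_dvd hm h5) (by omega)
  have hnk : (n : k) ≠ 0 := hcast n hn (Nat.le_mul_of_pos_left n hN0)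
  have hNk : (N : k) ≠ 0 := hcast N hN0 (Nat.le_mul_of_pos_right N hn)
  have hX : (RatFunc.X : RatFunc k) ≠ 0 := X_ne
  have hX1 : (RatFunc.X - 1 : RatFunc k) ≠ 0 := X1_ne
  have hg0 : g ≠ 0 := by
    rintro rfl
    apply hy0
    ext1 i
    rw [hy i, Pi.zero_apply, map_zero, mul_zero, Pi.zero_apply]
  obtain ⟨a', b', g', hg', hdeg', hev0, hev1⟩ := extract g hg0
  set f₀ : ℤ := e₀ + a' with hf₀
  set f₁ : ℤ := e₁ + b' with hf₁
  have hy' : ∀ i, y i = RatFunc.X ^ f₀ * (RatFunc.X - 1) ^ f₁ *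
      algebraMap k[X] (RatFunc k) (g' i) := by
    intro i
    rw [hy i, hg' i, hf₀, hf₁, zpow_add₀ hX, zpow_add₀ hX1]
    simp only [map_mul, map_pow, map_sub, map_one, RatFunc.algebraMap_X, zpow_natCast]
    ring
  -- the equation for `g'`
  have hode : ODE ((Matrix.of fun i l => φ (b i l) / (n : k)) + ((-f₀ : ℤ) : k) • 1)
      ((Matrix.of fun i l => φ (c i l) / (n : k)) + ((-f₁ : ℤ) : k) • 1) 0 0 g' := by
    have h3 := sys_twist hsys (-f₀) (-f₁)
    have h4 : (fun i => RatFunc.X ^ (-f₀) * (RatFunc.X - 1) ^ (-f₁) * y i) =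
        fun i => algebraMap k[X] (RatFunc k) (g' i) := by
      ext1 i
      rw [hy' i]
      have h5 : (RatFunc.X : RatFunc k) ^ (-f₀) * RatFunc.X ^ f₀ = 1 := by
        rw [← zpow_add₀ hX]; simp
      have h6 : (RatFunc.X - 1 : RatFunc k) ^ (-f₁) * (RatFunc.X - 1) ^ f₁ = 1 := by
        rw [← zpow_add₀ hX1]; simp
      calc _ = (RatFunc.X ^ (-f₀) * RatFunc.X ^ f₀) * ((RatFunc.X - 1) ^ (-f₁) *
            (RatFunc.X - 1) ^ f₁) * algebraMap k[X] (RatFunc k) (g' i) := by ring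
        _ = _ := by rw [h5, h6]; ring
    rw [h4] at h3
    exact (ode_iff (a := 0) (e := 0) (fun i => by simp)).mp h3
  -- congruences
  have hcong : ∀ (m : Matrix (Fin r) (Fin r) (𝓞 K)) (f : ℤ) (w : Fin r → k),
      ((Matrix.of fun i l => φ (m i l) / (n : k)) + ((-f : ℤ) : k) • 1).mulVec w = 0 →
      (m.map φ).mulVec w = (((n : ℤ) * f : ℤ) : k) • w := by
    intro m f w hw
    ext i
    have h5 := congrFun hw i
    rw [Matrix.add_mulVec, Matrix.smul_mulVec, Matrix.one_mulVec, Pi.add_apply, Pi.smul_apply,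
      smul_eq_mul, Matrix.mulVec, dotProduct, Pi.zero_apply] at h5
    rw [Matrix.mulVec, dotProduct, Pi.smul_apply, smul_eq_mul]
    simp only [Matrix.of_apply, Matrix.map_apply] at h5 ⊢
    have h6 : ∑ l, φ (m i l) * w l = n * ∑ l, φ (m i l) / n * w l := by
      rw [Finset.mul_sum]
      refine Finset.sum_congr rfl fun l _ => ?_
      field_simp
    rw [h6]
    push_cast at h5 ⊢
    linear_combination (n : k) * h5
  obtain ⟨a₁, ha₁, hd₁⟩ := h1 ((n : ℤ) * f₀) p k φ _ hev0 (hcong b f₀ _ (by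
    ext i
    have h3 := congrArg (fun q => q.eval 0) (hode i)
    simp only [eval_mul, eval_X, eval_sub, eval_one, zero_mul, eval_add, Nat.cast_zero, eval_zero,
      mul_zero, add_zero, zero_sub, eval_finsetSum, eval_C, zero_add] at h3
    rw [Matrix.mulVec, dotProduct, Pi.zero_apply]
    have h4 : ∑ j, (-1 * (((Matrix.of fun i l => φ (b i l) / (n : k)) +
        ((-f₀ : ℤ) : k) • (1 : Matrix (Fin r) (Fin r) k)) i j)) * (g' j).eval 0 =
        -∑ j, (((Matrix.of fun i l => φ (b i l) / (n : k)) +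
        ((-f₀ : ℤ) : k) • (1 : Matrix (Fin r) (Fin r) k)) i j) * (g' j).eval 0 := by
      rw [← Finset.sum_neg_distrib]
      exact Finset.sum_congr rfl fun j _ => by ring
    rw [h4] at h3
    linear_combination h3))
  obtain ⟨a₂, ha₂, hd₂⟩ := h2 ((n : ℤ) * f₁) p k φ _ hev1 (hcong c f₁ _ (by
    ext i
    have h3 := congrArg (fun q => q.eval 1) (hode i)
    simp only [eval_mul, eval_X, eval_sub, eval_one, zero_mul, eval_add, Nat.cast_zero, eval_zero,
      mul_zero, add_zero, sub_self, eval_finsetSum, eval_C, zero_add, one_mul] at h3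
    rw [Matrix.mulVec, dotProduct, Pi.zero_apply]
    exact h3.symm))
  -- the sign
  obtain ⟨ε, hε, hεN⟩ : ∃ ε : ℤ, ε.natAbs = 1 ∧ (N : ℤ) = ε * (N1 * N2) := by
    rcases Int.natAbs_eq (N1 * N2) with h5 | h5
    · exact ⟨1, rfl, by rw [one_mul, hN]; exact h5.symm⟩
    · refine ⟨-1, rfl, ?_⟩
      rw [hN]
      linarith
  -- common step
  have hfin : ∀ (f A' : ℤ), (p : ℤ) ∣ (N : ℤ) * (n * f) - A' →
      ∃ (i : Fin (N * n)) (q : ℤ), q.natAbs ≤ A'.natAbs + 1 ∧
        ((q - f : ℤ) : k) = -(((i : ℕ) : k) / ((N * n : ℕ) : k)) := by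
    intro f A' hd
    have hMz : (0 : ℤ) < ((N * n : ℕ) : ℤ) := by exact_mod_cast hM
    have h5 := Int.emod_nonneg A' hMz.ne'
    have h6 := Int.emod_lt_of_pos A' hMz
    have h7 := Int.emod_add_mul_ediv A' ((N * n : ℕ) : ℤ)
    refine ⟨⟨(A' % ((N * n : ℕ) : ℤ)).toNat, by omega⟩, A' / ((N * n : ℕ) : ℤ), ?_, ?_⟩
    · have h8 : (A' / ((N * n : ℕ) : ℤ)).natAbs ≤ A'.natAbs + 1 := by
        have h9 := Int.natAbs_ediv_le_natAbs A' ((N * n : ℕ) : ℤ)
        omega
      exact h8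
    · have h8 : (((N : ℤ) * (n * f) - A' : ℤ) : k) = 0 :=
        (CharP.intCast_eq_zero_iff k p _).mpr hd
      have h9 : (((A' % ((N * n : ℕ) : ℤ)).toNat : ℕ) : k) = ((A' % ((N * n : ℕ) : ℤ) : ℤ) : k) := by
        have : (((A' % ((N * n : ℕ) : ℤ)).toNat : ℤ)) = A' % ((N * n : ℕ) : ℤ) := Int.toNat_of_nonneg h5
        rw [← Int.cast_natCast, this]
      have h10 : (A' : k) = ((A' % ((N * n : ℕ) : ℤ) : ℤ) : k) +
          ((N * n : ℕ) : k) * ((A' / ((N * n : ℕ) : ℤ) : ℤ) : k) := by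
        have := congrArg (fun z : ℤ => (z : k)) h7
        simp only [Int.cast_add, Int.cast_mul, Int.cast_natCast] at this
        exact this.symm
      have hMk : ((N * n : ℕ) : k) ≠ 0 := hcast _ hM le_rfl
      show ((A' / ((N * n : ℕ) : ℤ) - f : ℤ) : k) =
        -((((A' % ((N * n : ℕ) : ℤ)).toNat : ℕ) : k) / ((N * n : ℕ) : k))
      rw [h9, ← neg_div, eq_div_iff hMk, Int.cast_sub]
      push_cast at h8 h10 ⊢
      linear_combination -h8 - h10
  obtain ⟨i₀, q₀, hq₀, hi₀⟩ := hfin f₀ (ε * (N2 * a₁)) (by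
    have h5 : (N : ℤ) * (n * f₀) - ε * (N2 * a₁) = (ε * N2) * (N1 * ((n : ℤ) * f₀) - a₁) := by
      rw [hεN]; ring
    rw [h5]
    exact Dvd.dvd.mul_left hd₁ _)
  obtain ⟨i₁, q₁, hq₁, hi₁⟩ := hfin f₁ (ε * (N1 * a₂)) (by
    have h5 : (N : ℤ) * (n * f₁) - ε * (N1 * a₂) = (ε * N1) * (N2 * ((n : ℤ) * f₁) - a₂) := by
      rw [hεN]; ring
    rw [h5]
    exact Dvd.dvd.mul_left hd₂ _)
  refine ⟨(i₀, i₁), q₀ - f₀, q₁ - f₁, ?_, ?_⟩
  · have h5 := sys_twist hsys (q₀ - f₀) (q₁ - f₁)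
    have hmat : ∀ (m : Matrix (Fin r) (Fin r) (𝓞 K)) (i : Fin (N * n)) (z : ℤ),
        ((z : ℤ) : k) = -(((i : ℕ) : k) / ((N * n : ℕ) : k)) →
        (Matrix.of fun i l => φ (m i l) / (n : k)) + (z : k) • (1 : Matrix (Fin r) (Fin r) k) =
        Matrix.of fun j l => φ (((N : 𝓞 K) • m -
            ((i : ℕ) : 𝓞 K) • (1 : Matrix (Fin r) (Fin r) (𝓞 K)) :
              Matrix (Fin r) (Fin r) (𝓞 K)) j l) / ((N * n : ℕ) : k) := by
      intro m i z hz
      ext j l
      rw [Matrix.add_apply, Matrix.smul_apply, Matrix.of_apply, Matrix.of_apply, Matrix.sub_apply,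
        Matrix.smul_apply, Matrix.smul_apply, hz, map_sub, smul_eq_mul, smul_eq_mul, smul_eq_mul,
        map_mul, map_mul, map_natCast, map_natCast, Matrix.one_apply, Matrix.one_apply]
      push_cast
      split_ifs
      · rw [map_one]
        field_simp
        ring
      · rw [map_zero]
        field_simp
        ring
    rw [hmat b i₀ _ hi₀, hmat c i₁ _ hi₁] at h5
    exact h5
  · intro j
    have h5 : RatFunc.X ^ (q₀ - f₀) * (RatFunc.X - 1) ^ (q₁ - f₁) * y j =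
        RatFunc.X ^ q₀ * (RatFunc.X - 1) ^ q₁ * algebraMap k[X] (RatFunc k) (g' j) := by
      rw [hy' j, zpow_sub₀ hX, zpow_sub₀ hX1]
      have h6 : (RatFunc.X : RatFunc k) ^ f₀ ≠ 0 := zpow_ne_zero _ hX
      have h7 : (RatFunc.X - 1 : RatFunc k) ^ f₁ ≠ 0 := zpow_ne_zero _ hX1
      field_simp
    rw [h5]
    refine (ht_twist (g' j) q₀ q₁ ((hdeg' j).trans (hgh j))).trans ?_
    have h6 : (ε * (N2 * a₁)).natAbs ≤ N2.natAbs * A1 := by
      rw [Int.natAbs_mul, hε, one_mul, Int.natAbs_mul]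
      exact Nat.mul_le_mul_left _ ha₁
    have h7 : (ε * (N1 * a₂)).natAbs ≤ N1.natAbs * A2 := by
      rw [Int.natAbs_mul, hε, one_mul, Int.natAbs_mul]
      exact Nat.mul_le_mul_left _ ha₂
    omega

end Pool.Agent.X98.SY
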