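import Pool.Agent.X98.SY.Lin

set_option autoImplicit false

open NumberField Polynomial

namespace Pool.Agent.X98.SY

variable {K : Type*} [Field K] [NumberField K]

/-- Norms of the values of a polynomial. -/
lemma norm_value (f : (𝓞 K)[X]) {r : ℕ} (hf : f.natDegree ≤ r) : ∃ C : ℕ, ∀ y : ℤ,
    (Algebra.norm ℤ (f.eval (y : 𝓞 K))).natAbs ≤
      C * (y.natAbs + 1) ^ (r * Module.finrank ℚ K) := by
  classical
  set S : ℝ := 1 + ∑ σ : K →ₐ[ℚ] ℂ, ∑ i ∈ Finset.range (r + 1), ‖σ (f.coeff i : K)‖ with hS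
  have hS0 : ∀ σ : K →ₐ[ℚ] ℂ, ∑ i ∈ Finset.range (r + 1), ‖σ (f.coeff i : K)‖ ≤ S := by
    intro σ
    have h1 : ∑ i ∈ Finset.range (r + 1), ‖σ (f.coeff i : K)‖ ≤
        ∑ σ : K →ₐ[ℚ] ℂ, ∑ i ∈ Finset.range (r + 1), ‖σ (f.coeff i : K)‖ :=
      Finset.single_le_sum (f := fun σ : K →ₐ[ℚ] ℂ =>
        ∑ i ∈ Finset.range (r + 1), ‖σ (f.coeff i : K)‖)
        (fun _ _ => Finset.sum_nonneg fun _ _ => norm_nonneg _) (Finset.mem_univ σ)
    linarith
  have hSpos : 0 < S := by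
    have : 0 ≤ ∑ σ : K →ₐ[ℚ] ℂ, ∑ i ∈ Finset.range (r + 1), ‖σ (f.coeff i : K)‖ :=
      Finset.sum_nonneg fun _ _ => Finset.sum_nonneg fun _ _ => norm_nonneg _
    linarith
  refine ⟨⌈S ^ Module.finrank ℚ K⌉₊, fun y => ?_⟩
  have h1 : ∀ σ : K →ₐ[ℚ] ℂ, ‖σ ((f.eval (y : 𝓞 K) : 𝓞 K) : K)‖ ≤ S * ((y.natAbs : ℝ) + 1) ^ r := by
    intro σ
    let g : 𝓞 K →+* ℂ := (σ : K →+* ℂ).comp (algebraMap (𝓞 K) K)
    have hg : ∀ x : 𝓞 K, g x = σ (x : K) := fun _ => rfl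
    have h2 : σ ((f.eval (y : 𝓞 K) : 𝓞 K) : K) =
        ∑ i ∈ Finset.range (r + 1), σ (f.coeff i : K) * (y : ℂ) ^ i := by
      rw [← hg, eval_eq_sum_range' (by omega : f.natDegree < r + 1), map_sum]
      refine Finset.sum_congr rfl fun i _ => ?_
      rw [map_mul, map_pow, map_intCast, hg]
    rw [h2]
    refine (norm_sum_le _ _).trans ?_
    calc ∑ i ∈ Finset.range (r + 1), ‖σ (f.coeff i : K) * (y : ℂ) ^ i‖
        ≤ ∑ i ∈ Finset.range (r + 1), ‖σ (f.coeff i : K)‖ * ((y.natAbs : ℝ) + 1) ^ r := by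
          refine Finset.sum_le_sum fun i hi => ?_
          rw [norm_mul, norm_pow]
          refine mul_le_mul_of_nonneg_left ?_ (norm_nonneg _)
          have h3 : ‖(y : ℂ)‖ = (y.natAbs : ℝ) := by
            rw [Complex.norm_intCast, Nat.cast_natAbs, Int.cast_abs]
          rw [h3]
          have h4 : i ≤ r := by have := Finset.mem_range.mp hi; omega
          exact (pow_le_pow_left₀ (by positivity) (by linarith) i).trans
            (pow_le_pow_right₀ (by linarith [(Nat.cast_nonneg y.natAbs : (0:ℝ) ≤ _)]) h4)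
      _ = (∑ i ∈ Finset.range (r + 1), ‖σ (f.coeff i : K)‖) * ((y.natAbs : ℝ) + 1) ^ r := by
          rw [Finset.sum_mul]
      _ ≤ S * ((y.natAbs : ℝ) + 1) ^ r :=
          mul_le_mul_of_nonneg_right (hS0 σ) (by positivity)
  have h2 : (((Algebra.norm ℤ (f.eval (y : 𝓞 K))).natAbs : ℕ) : ℝ) ≤
      S ^ Module.finrank ℚ K * (((y.natAbs : ℝ) + 1) ^ (r * Module.finrank ℚ K)) := by
    have h3 : (((Algebra.norm ℤ (f.eval (y : 𝓞 K))).natAbs : ℕ) : ℝ) =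
        ‖∏ σ : K →ₐ[ℚ] ℂ, σ ((f.eval (y : 𝓞 K) : 𝓞 K) : K)‖ := by
      rw [← Algebra.norm_eq_prod_embeddings ℚ ℂ ((f.eval (y : 𝓞 K) : 𝓞 K) : K),
        ← Algebra.coe_norm_int, Nat.cast_natAbs, Int.cast_abs]
      simp
    rw [h3, norm_prod]
    refine (Finset.prod_le_prod (fun _ _ => norm_nonneg _) fun σ _ => h1 σ).trans ?_
    rw [Finset.prod_const, Finset.card_univ, AlgHom.card ℚ K ℂ, mul_pow, ← pow_mul]
  have h3 : S ^ Module.finrank ℚ K ≤ (⌈S ^ Module.finrank ℚ K⌉₊ : ℝ) := Nat.le_ceil _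
  have h4 : (((Algebra.norm ℤ (f.eval (y : 𝓞 K))).natAbs : ℕ) : ℝ) ≤
      ((⌈S ^ Module.finrank ℚ K⌉₊ * (y.natAbs + 1) ^ (r * Module.finrank ℚ K) : ℕ) : ℝ) := by
    push_cast
    exact h2.trans (mul_le_mul_of_nonneg_right h3 (by positivity))
  exact_mod_cast h4

/-- Small zeros modulo large primes are bounded. -/
lemma small_root {f : (𝓞 K)[X]} (hf0 : f ≠ 0) {r : ℕ} (hf : f.natDegree ≤ r) : ∃ C : ℕ,
    ∀ (y : ℤ) (p : ℕ) (k : Type*) [Field k] [CharP k p] (φ : 𝓞 K →+* k),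
      φ (f.eval (y : 𝓞 K)) = 0 → C * (y.natAbs + 1) ^ (r * Module.finrank ℚ K) < p →
      y.natAbs ≤ C := by
  classical
  obtain ⟨C, hC⟩ := norm_value f hf
  have hfin : {y : ℤ | f.eval (y : 𝓞 K) = 0}.Finite := by
    have h1 : (f.roots.toFinset : Set (𝓞 K)).Finite := Finset.finite_toSet _
    refine Set.Finite.subset (h1.preimage (f := fun y : ℤ => (y : 𝓞 K))
      (Int.cast_injective.injOn)) ?_
    intro y hy
    simp only [Set.mem_preimage, Finset.mem_coe, Multiset.mem_toFinset, mem_roots hf0]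
    exact hy
  refine ⟨C + hfin.toFinset.sup Int.natAbs, fun y p k _ _ φ h0 hlt => ?_⟩
  have h1 : f.eval (y : 𝓞 K) = 0 := by
    by_contra hne
    have h2 := dvd_norm φ h0
    have h3 : 0 < (Algebra.norm ℤ (f.eval (y : 𝓞 K))).natAbs :=
      Int.natAbs_pos.mpr (Algebra.norm_ne_zero_iff.mpr hne)
    have h4 := Nat.le_of_dvd h3 h2
    have h5 := hC y
    have h6 : C * (y.natAbs + 1) ^ (r * Module.finrank ℚ K) ≤
        (C + hfin.toFinset.sup Int.natAbs) * (y.natAbs + 1) ^ (r * Module.finrank ℚ K) :=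
      Nat.mul_le_mul_right _ (Nat.le_add_right _ _)
    omega
  have h2 : y.natAbs ≤ hfin.toFinset.sup Int.natAbs :=
    Finset.le_sup (f := Int.natAbs) (hfin.mem_toFinset.mpr h1)
  omega

/-- Small integral eigenvalues modulo large primes are bounded. -/
theorem eig_small {r : ℕ} (M : Matrix (Fin r) (Fin r) (𝓞 K)) : ∃ C : ℕ,
    ∀ (y : ℤ) (p : ℕ) (k : Type*) [Field k] [CharP k p] (φ : 𝓞 K →+* k) (u : Fin r → k),
      u ≠ 0 → (M.map φ).mulVec u = (y : k) • u →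
      C * (y.natAbs + 1) ^ (r * Module.finrank ℚ K) < p → y.natAbs ≤ C := by
  classical
  have hdeg : M.charpoly.natDegree ≤ r := by
    rw [Matrix.charpoly_natDegree_eq_dim, Fintype.card_fin]
  obtain ⟨C, hC⟩ := small_root (M.charpoly_monic.ne_zero) hdeg
  refine ⟨C, fun y p k _ _ φ u hu hMu hlt => hC y p k φ ?_ hlt⟩
  have h1 : ((Matrix.scalar (Fin r) (y : k)) - M.map φ).det = 0 := by
    rw [← Matrix.exists_mulVec_eq_zero_iff]
    refine ⟨u, hu, ?_⟩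
    rw [Matrix.sub_mulVec, hMu]
    ext i
    simp
  rw [← Matrix.eval_charpoly] at h1
  have h2 : (M.map φ).charpoly = M.charpoly.map φ := Matrix.charpoly_map M φ
  have h3 : φ (M.charpoly.eval (y : 𝓞 K)) = (M.charpoly.map φ).eval (y : k) := by
    rw [eval_map, ← map_intCast φ y, eval₂_at_apply]
  rw [h3, ← h2]
  exact h1

end Pool.Agent.X98.SY
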