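import Pool.Agent.X98.SY.Rat
import Pool.Agent.W432.HK.Rat

set_option autoImplicit false

open Polynomial NumberField

namespace Pool.Agent.X98.SY

open Pool.Agent.W432.HK (exists_frob_point split_rat)

universe u v

/-- Under vanishing `p`-curvatures the eigenvalues are rational. -/
theorem eig_rational {K : Type u} [Field K] [NumberField K] {r n : ℕ}
    {b c : Matrix (Fin r) (Fin r) (𝓞 K)}
    (hcond : {P : Ideal (𝓞 K) | P.IsMaximal ∧ ¬ PCurvZero n b c P}.Finite)
    (m : Matrix (Fin r) (Fin r) (𝓞 K)) (hm : m = b ∨ m = c ∨ m = b + c)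
    (σ : K →+* AlgebraicClosure ℚ) (β : AlgebraicClosure ℚ)
    (hβ : (m.charpoly.map (σ.comp (algebraMap (𝓞 K) K))).eval β = 0) :
    ∃ q : ℚ, (q : AlgebraicClosure ℚ) = β := by
  classical
  by_contra hcon
  push Not at hcon
  let ω := RingOfIntegers.basis K
  let S : Finset (AlgebraicClosure ℚ) := Finset.univ.image fun i => σ (ω i : K)
  obtain ⟨p, hp, R, _, ι, φ, hB, hι, hS, β', hβ', hφ⟩ := exists_frob_point S β hcon
    (hcond.toFinset.sup fun P => ringChar (𝓞 K ⧸ P))
  have hmem : ∀ x : 𝓞 K, (σ.comp (algebraMap (𝓞 K) K)) x ∈ ι.range := by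
    intro x
    rw [← ω.sum_repr x, map_sum]
    refine Subring.sum_mem _ fun i _ => ?_
    rw [zsmul_eq_mul, map_mul, map_intCast]
    refine Subring.mul_mem _ (intCast_mem ι.range _) ?_
    obtain ⟨y, hy⟩ := hS _ (Finset.mem_image.mpr ⟨i, Finset.mem_univ _, rfl⟩)
    exact ⟨y, hy⟩
  let e : R ≃+* ι.range := RingEquiv.ofBijective ι.rangeRestrict
    ⟨fun x y h => hι (congrArg Subtype.val h), ι.rangeRestrict_surjective⟩
  let g : 𝓞 K →+* R := e.symm.toRingHom.comp
    ((σ.comp (algebraMap (𝓞 K) K)).codRestrict ι.range hmem)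
  have hg : ∀ x, ι (g x) = (σ.comp (algebraMap (𝓞 K) K)) x := by
    intro x
    have h1 := e.apply_symm_apply ((σ.comp (algebraMap (𝓞 K) K)).codRestrict ι.range hmem x)
    exact congrArg Subtype.val h1
  have hgc : ι.comp g = σ.comp (algebraMap (𝓞 K) K) := RingHom.ext hg
  let ρ : 𝓞 K →+* AlgebraicClosure (ZMod p) := φ.comp g
  have hch : CharP (AlgebraicClosure (ZMod p)) p :=
    charP_of_injective_algebraMap (algebraMap (ZMod p) _).injective p
  let P : Ideal (𝓞 K) := RingHom.ker ρ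
  have hPprime : P.IsPrime := RingHom.ker_isPrime ρ
  have hpP : (p : 𝓞 K) ∈ P := by
    rw [RingHom.mem_ker, map_natCast, CharP.cast_eq_zero]
  have hPbot : P ≠ ⊥ := by
    intro h0
    rw [h0, Ideal.mem_bot] at hpP
    exact hp.out.ne_zero (by exact_mod_cast hpP)
  have hPmax : P.IsMaximal := hPprime.isMaximal hPbot
  let ψ : 𝓞 K ⧸ P →+* AlgebraicClosure (ZMod p) := RingHom.kerLift ρ
  have hψ : Function.Injective ψ := RingHom.kerLift_injective ρ
  have hchP : CharP (𝓞 K ⧸ P) p := ψ.charP hψ p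
  have hrc : ringChar (𝓞 K ⧸ P) = p := ringChar.eq (𝓞 K ⧸ P) p
  have hgood : PCurvZero n b c P := by
    by_contra hbad
    have h1 : P ∈ hcond.toFinset := hcond.mem_toFinset.mpr ⟨hPmax, hbad⟩
    have h2 := Finset.le_sup (f := fun P : Ideal (𝓞 K) => ringChar (𝓞 K ⧸ P)) h1
    simp only [hrc] at h2
    omega
  obtain ⟨Q, hQ⟩ := rec_exists n (b.map (Ideal.Quotient.mk P)) (c.map (Ideal.Quotient.mk P))
  have hQp : Q p = 0 := by
    have := hgood Q hQ
    rwa [hrc] at this
  have hQ' := hQ.map ψ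
  have hbρ : ∀ a : Matrix (Fin r) (Fin r) (𝓞 K), (a.map (Ideal.Quotient.mk P)).map ψ = a.map ρ := by
    intro a
    ext i j
    rfl
  rw [hbρ, hbρ] at hQ'
  -- an eigenvector
  have h1 : (m.charpoly.map ρ).eval (φ β') = 0 := by
    have h2 : (m.charpoly.map g).eval β' = 0 := by
      apply hι
      have h3 : m.charpoly.map (σ.comp (algebraMap (𝓞 K) K)) = (m.charpoly.map g).map ι := by
        rw [Polynomial.map_map, hgc]
      have h4 : ((m.charpoly.map g).map ι).eval (ι β') = ι ((m.charpoly.map g).eval β') := by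
        rw [eval_map ι, eval₂_at_apply]
      rw [map_zero, ← h4, ← h3, hβ', hβ]
    have h3 : m.charpoly.map ρ = (m.charpoly.map g).map φ := (Polynomial.map_map _ _ _).symm
    have h4 : ((m.charpoly.map g).map φ).eval (φ β') = φ ((m.charpoly.map g).eval β') := by
      rw [eval_map φ, eval₂_at_apply]
    rw [h3, h4, h2, map_zero]
  rw [← Matrix.charpoly_map, Matrix.eval_charpoly, ← Matrix.exists_mulVec_eq_zero_iff] at h1
  obtain ⟨w, hw0, hw⟩ := h1
  have hw' : (m.map ρ).mulVec w = (φ β') • w := by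
    rw [Matrix.sub_mulVec, sub_eq_zero] at hw
    rw [← hw]
    ext i
    simp
  apply hφ
  refine frob_fixed hQ' (by rw [hQp]; simp) hw0 ?_
  rcases hm with rfl | rfl | rfl
  · exact Or.inl hw'
  · exact Or.inr (Or.inl hw')
  · refine Or.inr (Or.inr ?_)
    rw [← hw']
    congr 1
    ext i j
    simp

/-- Matrices with rational eigenvalues. -/
theorem eig_of_rat {K : Type u} [Field K] [NumberField K] {r : ℕ}
    (m : Matrix (Fin r) (Fin r) (𝓞 K)) (σ : K →+* AlgebraicClosure ℚ)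
    (h : ∀ β : AlgebraicClosure ℚ, (m.charpoly.map (σ.comp (algebraMap (𝓞 K) K))).eval β = 0 →
      ∃ q : ℚ, (q : AlgebraicClosure ℚ) = β) : Eig.{u, v} m 1 := by
  classical
  set τ := σ.comp (algebraMap (𝓞 K) K) with hτ
  have hτinj : Function.Injective τ := σ.injective.comp RingOfIntegers.coe_injective
  have hdeg : (m.charpoly.map τ).natDegree = r := by
    rw [(m.charpoly_monic).natDegree_map, Matrix.charpoly_natDegree_eq_dim, Fintype.card_fin]
  obtain ⟨lam, hlam⟩ := split_rat (m.charpoly.map τ) hdeg (fun β _ hβ => h β hβ)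
  rw [((m.charpoly_monic).map τ).leadingCoeff, map_one, one_mul] at hlam
  obtain ⟨N, hN⟩ := IsLocalization.exist_integer_multiples_of_finset (nonZeroDivisors ℤ)
    (Finset.univ.image lam)
  have h1 : ∀ l, ∃ a : ℤ, (a : ℚ) = (N : ℤ) * lam l := by
    intro l
    obtain ⟨a, ha⟩ := hN (lam l) (Finset.mem_image.mpr ⟨l, Finset.mem_univ _, rfl⟩)
    refine ⟨a, ?_⟩
    have h2 : (a : ℚ) = algebraMap ℤ ℚ a := rfl
    rw [h2, ha, Algebra.smul_def]
    rfl
  choose a ha using h1
  have hN0 : (N : ℤ) ≠ 0 := nonZeroDivisors.ne_zero N.2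
  -- the product formula
  have hprod : ∀ y : ℤ, ((N : ℤ) : 𝓞 K) ^ r * m.charpoly.eval (y : 𝓞 K) =
      ∏ l, ((((N : ℤ) * y - a l : ℤ)) : 𝓞 K) := by
    intro y
    apply hτinj
    have h2 : τ (m.charpoly.eval (y : 𝓞 K)) = (m.charpoly.map τ).eval (y : AlgebraicClosure ℚ) := by
      rw [eval_map, ← map_intCast τ y, eval₂_at_apply]
    rw [map_mul, h2, hlam, eval_prod, map_prod, map_pow, map_intCast]
    have h3 : (((N : ℤ) : AlgebraicClosure ℚ)) ^ r = ∏ _l : Fin r, ((N : ℤ) : AlgebraicClosure ℚ) := by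
      simp
    rw [h3, ← Finset.prod_mul_distrib]
    refine Finset.prod_congr rfl fun l _ => ?_
    rw [map_intCast, eval_sub, eval_X, eval_C]
    have h4 : ((a l : ℤ) : AlgebraicClosure ℚ) = ((N : ℤ) : AlgebraicClosure ℚ) *
        ((lam l : ℚ) : AlgebraicClosure ℚ) := by
      have h5 : (((a l : ℤ) : ℚ) : AlgebraicClosure ℚ) =
          ((((N : ℤ) : ℚ) * lam l : ℚ) : AlgebraicClosure ℚ) := by rw [ha l]
      push_cast at h5
      exact h5
    push_cast
    rw [h4]
    ring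
  refine ⟨(N : ℤ).natAbs + ∑ l, (a l).natAbs, fun y p k _ _ φ w hw0 hw hlt => ?_⟩
  rw [pow_one] at hlt
  have h5 : φ (m.charpoly.eval (y : 𝓞 K)) = 0 := by
    have h6 : ((Matrix.scalar (Fin r) (y : k)) - m.map φ).det = 0 := by
      rw [← Matrix.exists_mulVec_eq_zero_iff]
      refine ⟨w, hw0, ?_⟩
      rw [Matrix.sub_mulVec, hw]
      ext i
      simp
    rw [← Matrix.eval_charpoly] at h6
    have h7 : φ (m.charpoly.eval (y : 𝓞 K)) = (m.charpoly.map φ).eval (y : k) := by
      rw [eval_map, ← map_intCast φ y, eval₂_at_apply]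
    rw [h7, ← Matrix.charpoly_map]
    exact h6
  have h6 := congrArg φ (hprod y)
  rw [map_mul, h5, mul_zero, map_prod] at h6
  obtain ⟨l, _, hl⟩ := Finset.prod_eq_zero_iff.mp h6.symm
  rw [map_intCast] at hl
  have h7 : (p : ℤ) ∣ (N : ℤ) * y - a l := (CharP.intCast_eq_zero_iff k p _).mp hl
  have hal : (a l).natAbs ≤ ∑ l, (a l).natAbs :=
    Finset.single_le_sum (f := fun l => (a l).natAbs) (fun _ _ => Nat.zero_le _) (Finset.mem_univ l)
  have h8 : (N : ℤ).natAbs * y.natAbs + (a l).natAbs < p := by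
    have e1 : ((N : ℤ).natAbs + ∑ l, (a l).natAbs) * (y.natAbs + 1) =
        (N : ℤ).natAbs * y.natAbs + ∑ l, (a l).natAbs + ((N : ℤ).natAbs +
          (∑ l, (a l).natAbs) * y.natAbs) := by ring
    omega
  have h9 : (N : ℤ) * y - a l = 0 := by
    apply Int.eq_zero_of_abs_lt_dvd h7
    have e1 : |(N : ℤ) * y - a l| ≤ |(N : ℤ)| * |y| + |a l| := by
      refine (abs_sub _ _).trans ?_
      rw [abs_mul]
    have e2 : (((N : ℤ).natAbs * y.natAbs + (a l).natAbs : ℕ) : ℤ) < (p : ℤ) := by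
      exact_mod_cast h8
    push_cast [Int.natCast_natAbs] at e2
    linarith
  have h10 : (N : ℤ).natAbs * y.natAbs = (a l).natAbs := by
    rw [← Int.natAbs_mul]
    congr 1
    linarith
  have h11 : y.natAbs ≤ (N : ℤ).natAbs * y.natAbs :=
    Nat.le_mul_of_pos_left _ (Int.natAbs_pos.mpr hN0)
  omega

end Pool.Agent.X98.SY
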