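import Mathlib

set_option autoImplicit false

open NumberField

namespace Pool.Agent.X98.SY

variable {K : Type*} [Field K] [NumberField K]

/-- An integer vanishing in a field of characteristic `p` has norm divisible by `p`. -/
lemma dvd_norm {p : ℕ} {k : Type*} [Field k] [CharP k p] (φ : 𝓞 K →+* k) {x : 𝓞 K}
    (hx : φ x = 0) : p ∣ (Algebra.norm ℤ x).natAbs := by
  have h1 : (Ideal.absNorm (Ideal.span {x}) : 𝓞 K) ∈ Ideal.span {x} := Ideal.absNorm_mem _
  rw [Ideal.absNorm_span_singleton, Ideal.mem_span_singleton] at h1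
  obtain ⟨y, hy⟩ := h1
  have h2 : ((Algebra.norm ℤ x).natAbs : k) = 0 := by
    have := congrArg φ hy
    rw [map_natCast, map_mul, hx, zero_mul] at this
    exact this
  exact (CharP.cast_eq_zero_iff k p _).mp h2

/-- A nonzero integer does not vanish in large characteristics. -/
lemma phi_ne {x : 𝓞 K} (hx : x ≠ 0) {p : ℕ} {k : Type*} [Field k] [CharP k p] (φ : 𝓞 K →+* k)
    (hp : (Algebra.norm ℤ x).natAbs < p) : φ x ≠ 0 := by
  intro h0
  have h1 := dvd_norm φ h0
  have h2 : Algebra.norm ℤ x ≠ 0 := Algebra.norm_ne_zero_iff.mpr hx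
  have h3 : 0 < (Algebra.norm ℤ x).natAbs := Int.natAbs_pos.mpr h2
  exact absurd (Nat.le_of_dvd h3 h1) (by omega)

/-- The rank over a field can be certified by two matrices. -/
lemma rank_cert {F : Type*} [Field F] {m n : Type*} [Fintype m] [Fintype n] [DecidableEq m]
    [DecidableEq n] (T : Matrix m n F) :
    ∃ (A : Matrix (Fin T.rank) m F) (B : Matrix n (Fin T.rank) F), A * T * B = 1 := by
  classical
  let f : (n → F) →ₗ[F] (m → F) := T.mulVecLin
  obtain ⟨g, hg⟩ := f.rangeRestrict.exists_rightInverse_of_surjective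
    (LinearMap.range_rangeRestrict f)
  obtain ⟨h, hh⟩ := (LinearMap.range f).subtype.exists_leftInverse_of_injective
    (Submodule.ker_subtype _)
  have hr : Module.finrank F (LinearMap.range f) = T.rank := rfl
  let e : Module.Basis (Fin T.rank) F (LinearMap.range f) :=
    (Module.finBasis F (LinearMap.range f)).reindex (finCongr hr)
  refine ⟨Matrix.of fun i l => e.repr (h (Pi.single l 1)) i,
    Matrix.of fun l j => g (e j) l, ?_⟩
  ext i j
  have h1 : T.mulVec (g (e j)) = (e j : m → F) := by
    have := congrArg (fun q => ((q (e j) : LinearMap.range f) : m → F)) hg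
    simpa [f] using this
  have h2 : h (e j : m → F) = e j := by
    have := congrArg (fun q => q (e j)) hh
    simpa using this
  have h3 : (e j : m → F) = ∑ l, (e j : m → F) l • (Pi.single l 1 : m → F) := by
    funext l
    simp [Finset.sum_apply, Pi.single_apply]
  have h4 : ((Matrix.of fun i l => e.repr (h (Pi.single l 1)) i) * T *
      (Matrix.of fun l j => g (e j) l)) i j =
      ∑ l, e.repr (h (Pi.single l 1)) i * (T.mulVec (g (e j))) l := by
    rw [Matrix.mul_assoc, Matrix.mul_apply]
    refine Finset.sum_congr rfl fun l _ => ?_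
    rw [Matrix.of_apply, Matrix.mul_apply, Matrix.mulVec, dotProduct]
    rfl
  rw [h4, h1]
  have h5 : e.repr (h (e j : m → F)) i =
      ∑ l, (e j : m → F) l * e.repr (h (Pi.single l 1)) i := by
    conv_lhs => rw [h3]
    rw [map_sum, map_sum, Finset.sum_apply']
    refine Finset.sum_congr rfl fun l _ => ?_
    rw [map_smul, map_smul]
    rfl
  rw [h2, e.repr_self] at h5
  rw [Matrix.one_apply]
  have h6 : ∑ l, e.repr (h (Pi.single l 1)) i * (e j : m → F) l =
      ∑ l, (e j : m → F) l * e.repr (h (Pi.single l 1)) i :=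
    Finset.sum_congr rfl fun l _ => mul_comm _ _
  rw [h6, ← h5, Finsupp.single_apply]
  by_cases hij : j = i
  · rw [if_pos hij, if_pos hij.symm]
  · rw [if_neg hij, if_neg (Ne.symm hij)]

/-- Clearing denominators of a finite matrix. -/
lemma clear_matrix {m n : Type*} [Fintype m] [Fintype n] (A : Matrix m n K) :
    ∃ (d : 𝓞 K) (A' : Matrix m n (𝓞 K)), d ≠ 0 ∧
      A'.map (algebraMap (𝓞 K) K) = (algebraMap (𝓞 K) K d) • A := by
  classical
  obtain ⟨d, hd⟩ := IsLocalization.exist_integer_multiples_of_finset (nonZeroDivisors (𝓞 K))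
    (Finset.univ.image fun ij : m × n => A ij.1 ij.2)
  have h1 : ∀ i j, ∃ a : 𝓞 K, algebraMap (𝓞 K) K a = algebraMap (𝓞 K) K d * A i j := by
    intro i j
    obtain ⟨a, ha⟩ := hd (A i j) (Finset.mem_image.mpr ⟨(i, j), Finset.mem_univ _, rfl⟩)
    exact ⟨a, by rw [ha, Algebra.smul_def]⟩
  choose a ha using h1
  refine ⟨d, Matrix.of a, nonZeroDivisors.ne_zero d.2, ?_⟩
  ext i j
  rw [Matrix.map_apply, Matrix.of_apply, ha, Matrix.smul_apply, smul_eq_mul]

/-- The dimension of the kernel does not increase in large characteristics. -/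
theorem ker_count {m n : Type*} [Fintype m] [Fintype n] [DecidableEq m] [DecidableEq n]
    (T : Matrix m n (𝓞 K)) : ∃ C : ℕ, ∀ (p : ℕ), C < p → ∀ (k : Type*) [Field k] [CharP k p]
      (φ : 𝓞 K →+* k) (s : ℕ) (v : Fin s → n → k), LinearIndependent k v →
      (∀ j, (T.map φ).mulVec (v j) = 0) →
      ∃ u : Fin s → n → K, LinearIndependent K u ∧
        ∀ j, (T.map (algebraMap (𝓞 K) K)).mulVec (u j) = 0 := by
  classical
  set TK := T.map (algebraMap (𝓞 K) K) with hTK
  obtain ⟨A, B, hAB⟩ := rank_cert TK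
  obtain ⟨d, A', hd, hA'⟩ := clear_matrix A
  obtain ⟨e, B', he, hB'⟩ := clear_matrix B
  have hinj : Function.Injective (algebraMap (𝓞 K) K) := RingOfIntegers.coe_injective
  have h1 : A' * T * B' = (d * e) • (1 : Matrix _ _ (𝓞 K)) := by
    have h2 : (A' * T * B').map (algebraMap (𝓞 K) K) =
        ((d * e) • (1 : Matrix _ _ (𝓞 K))).map (algebraMap (𝓞 K) K) := by
      rw [Matrix.map_mul, Matrix.map_mul, hA', hB', ← hTK, Matrix.smul_mul, Matrix.mul_smul,
        Matrix.smul_mul, hAB, smul_smul, ← map_mul, mul_comm e d]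
      ext i j
      simp only [Matrix.smul_apply, Matrix.map_apply, smul_eq_mul, map_mul, Matrix.one_apply]
      split_ifs <;> simp
    ext i j
    exact congrArg Subtype.val (hinj (congrFun (congrFun h2 i) j))
  refine ⟨(Algebra.norm ℤ (d * e)).natAbs, ?_⟩
  intro p hp k _ _ φ s v hv hker
  have hde : φ (d * e) ≠ 0 := phi_ne (mul_ne_zero hd he) φ hp
  -- the rank over `k`
  have hrank : TK.rank ≤ (T.map φ).rank := by
    have h3 : (A'.map φ) * (T.map φ) * (B'.map φ) = (φ (d * e)) • (1 : Matrix _ _ k) := by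
      rw [← Matrix.map_mul, ← Matrix.map_mul, h1]
      ext i j
      simp only [Matrix.smul_apply, Matrix.map_apply, smul_eq_mul, map_mul, Matrix.one_apply]
      split_ifs <;> simp
    have h4 : ((φ (d * e)) • (1 : Matrix (Fin TK.rank) (Fin TK.rank) k)).rank = TK.rank := by
      have h5 : IsUnit ((φ (d * e)) • (1 : Matrix (Fin TK.rank) (Fin TK.rank) k)) := by
        rw [Matrix.isUnit_iff_isUnit_det, Matrix.det_smul, Matrix.det_one, mul_one]
        exact (IsUnit.mk0 _ hde).pow _
      rw [Matrix.rank_of_isUnit _ h5, Fintype.card_fin]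
    calc TK.rank = ((A'.map φ) * (T.map φ) * (B'.map φ)).rank := by rw [h3, h4]
      _ ≤ ((A'.map φ) * (T.map φ)).rank := Matrix.rank_mul_le_left _ _
      _ ≤ (T.map φ).rank := Matrix.rank_mul_le_right _ _
  -- kernels
  have hkk : s ≤ Module.finrank k (LinearMap.ker (T.map φ).mulVecLin) := by
    let v' : Fin s → LinearMap.ker (T.map φ).mulVecLin := fun j => ⟨v j, by
      rw [LinearMap.mem_ker, Matrix.mulVecLin_apply]; exact hker j⟩
    have hv' : LinearIndependent k v' := by
      apply LinearIndependent.of_comp (Submodule.subtype _)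
      exact hv
    have := hv'.fintype_card_le_finrank
    rwa [Fintype.card_fin] at this
  have h6 := (T.map φ).mulVecLin.finrank_range_add_finrank_ker
  have h7 := TK.mulVecLin.finrank_range_add_finrank_ker
  rw [Module.finrank_fintype_fun_eq_card] at h6 h7
  have h8 : Module.finrank k (LinearMap.range (T.map φ).mulVecLin) = (T.map φ).rank := rfl
  have h9 : Module.finrank K (LinearMap.range TK.mulVecLin) = TK.rank := rfl
  rw [h8] at h6
  rw [h9] at h7
  have h10 : s ≤ Module.finrank K (LinearMap.ker TK.mulVecLin) := by omega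
  let bs := Module.finBasis K (LinearMap.ker TK.mulVecLin)
  refine ⟨fun j => (bs (Fin.castLE h10 j) : n → K), ?_, fun j => ?_⟩
  · have h11 : LinearIndependent K fun j : Fin s => bs (Fin.castLE h10 j) :=
      bs.linearIndependent.comp _ (Fin.castLE_injective h10)
    exact h11.map' (Submodule.subtype _) (Submodule.ker_subtype _)
  · have := (bs (Fin.castLE h10 j)).2
    rw [LinearMap.mem_ker, Matrix.mulVecLin_apply] at this
    exact this

end Pool.Agent.X98.SY
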