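import Pool.Agent.X98.SY.Eig
import Pool.Agent.W432.PC.Ddx

set_option autoImplicit false

open Polynomial

namespace Pool.Agent.X98.SY

open Pool.Agent.W432.PC (ddx ddx_algebraMap ddx_X)

/-- The height of a rational function. -/
noncomputable def ht {k : Type*} [Field k] (y : RatFunc k) : ℕ :=
  max y.num.natDegree y.denom.natDegree

/-- `v` solves the system `v' = (B / t + C / (t - 1)) v`. -/
def Sys {k : Type*} [Field k] {r : ℕ} (B C : Matrix (Fin r) (Fin r) k) (v : Fin r → RatFunc k) :
    Prop :=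
  ∀ i, ddx k (v i) = ∑ j, (RatFunc.C (B i j) / RatFunc.X + RatFunc.C (C i j) / (RatFunc.X - 1)) * v j

section

variable {k : Type*} [Field k] {r : ℕ}

lemma inj_alg : Function.Injective (algebraMap k[X] (RatFunc k)) := IsFractionRing.injective _ _

lemma X_ne : (RatFunc.X : RatFunc k) ≠ 0 := RatFunc.X_ne_zero

lemma X1_ne : (RatFunc.X - 1 : RatFunc k) ≠ 0 := by
  have h : (RatFunc.X - 1 : RatFunc k) = algebraMap k[X] (RatFunc k) (X - 1) := by
    rw [map_sub, RatFunc.algebraMap_X, map_one]
  rw [h, ne_eq, map_eq_zero_iff _ inj_alg]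
  exact X_sub_C_ne_zero (1 : k)

/-- The system without denominators. -/
lemma sys_clear {B C : Matrix (Fin r) (Fin r) k} {v : Fin r → RatFunc k} :
    Sys B C v ↔ ∀ i, algebraMap k[X] (RatFunc k) (X * (X - 1)) * ddx k (v i) =
      ∑ j, algebraMap k[X] (RatFunc k) ((X - 1) * Polynomial.C (B i j) +
        X * Polynomial.C (C i j)) * v j := by
  have hX : (RatFunc.X : RatFunc k) ≠ 0 := X_ne
  have hX1 : (RatFunc.X - 1 : RatFunc k) ≠ 0 := X1_ne
  unfold Sys
  refine forall_congr' fun i => ?_
  have h1 : algebraMap k[X] (RatFunc k) (X * (X - 1)) = RatFunc.X * (RatFunc.X - 1) := by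
    rw [map_mul, map_sub, RatFunc.algebraMap_X, map_one]
  have h2 : ∀ j, algebraMap k[X] (RatFunc k) ((X - 1) * Polynomial.C (B i j) +
        X * Polynomial.C (C i j)) * v j = (RatFunc.X * (RatFunc.X - 1)) *
          ((RatFunc.C (B i j) / RatFunc.X + RatFunc.C (C i j) / (RatFunc.X - 1)) * v j) := by
    intro j
    rw [map_add, map_mul, map_mul, map_sub, RatFunc.algebraMap_X, map_one, RatFunc.algebraMap_C,
      RatFunc.algebraMap_C]
    field_simp
  rw [h1, Finset.sum_congr rfl fun j _ => h2 j, ← Finset.mul_sum]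
  constructor
  · intro h; rw [h]
  · intro h; exact mul_left_cancel₀ (mul_ne_zero hX hX1) h

/-- In characteristic `p` a polynomial of degree less than `p` with zero derivative is constant. -/
lemma const_of_deriv {p : ℕ} [CharP k p] {q : k[X]} (hq : derivative q = 0)
    (hd : q.natDegree < p) : q = Polynomial.C (q.coeff 0) := by
  ext i
  rcases Nat.eq_zero_or_pos i with rfl | hi
  · simp
  rw [coeff_C, if_neg (by omega)]
  by_contra hne
  have h1 : i ≤ q.natDegree := le_natDegree_of_ne_zero hne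
  have h2 := congrArg (fun g => g.coeff (i - 1)) hq
  simp only [coeff_derivative, coeff_zero] at h2
  have h3 : i - 1 + 1 = i := by omega
  rw [h3] at h2
  have h4 : (((i - 1 : ℕ) : k) + 1) = (i : k) := by
    rw [← Nat.cast_add_one, h3]
  rw [h4] at h2
  have h5 : (i : k) ≠ 0 := by
    rw [ne_eq, CharP.cast_eq_zero_iff k p]
    intro h6
    exact absurd (Nat.le_of_dvd hi h6) (by omega)
  exact hne ((mul_eq_zero.mp h2).resolve_right h5)

/-- Multiples of the denominator. -/
lemma denom_dvd_iff (y : RatFunc k) (g : k[X]) : y.denom ∣ g ↔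
    ∃ w : k[X], algebraMap k[X] (RatFunc k) g * y = algebraMap k[X] (RatFunc k) w := by
  have hd : algebraMap k[X] (RatFunc k) y.denom ≠ 0 := by
    rw [ne_eq, map_eq_zero_iff _ inj_alg]; exact y.denom_ne_zero
  have hy : y * algebraMap k[X] (RatFunc k) y.denom = algebraMap k[X] (RatFunc k) y.num := by
    have := RatFunc.num_div_denom y
    rw [div_eq_iff hd] at this
    exact this.symm
  constructor
  · rintro ⟨c, rfl⟩
    refine ⟨c * y.num, ?_⟩
    rw [map_mul, map_mul, ← hy]
    ring
  · rintro ⟨w, hw⟩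
    have h1 : g * y.num = w * y.denom := by
      apply inj_alg
      rw [map_mul, map_mul, ← hy, ← hw]
      ring
    exact (RatFunc.isCoprime_num_denom y).symm.dvd_of_dvd_mul_right (Dvd.intro_left _ h1.symm)

/-- A generator of the ideal of denominators. -/
lemma exists_den (v : Fin r → RatFunc k) : ∃ q : k[X], q ≠ 0 ∧
    (∀ g, q ∣ g ↔ ∀ i, (v i).denom ∣ g) ∧ q.natDegree ≤ ∑ i, (v i).denom.natDegree := by
  classical
  let I : Ideal k[X] := ⨅ i, Ideal.span {(v i).denom}
  have hI : ∀ g, g ∈ I ↔ ∀ i, (v i).denom ∣ g := by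
    intro g
    simp only [I, Ideal.mem_iInf, Ideal.mem_span_singleton]
  obtain ⟨q, hq⟩ := (IsPrincipalIdealRing.principal I).principal
  have hq' : ∀ g, q ∣ g ↔ ∀ i, (v i).denom ∣ g := by
    intro g
    rw [← hI, hq, Ideal.submodule_span_eq, Ideal.mem_span_singleton]
  have hprod : q ∣ ∏ i, (v i).denom :=
    (hq' _).mpr fun i => Finset.dvd_prod_of_mem _ (Finset.mem_univ i)
  have hprod0 : ∏ i, (v i).denom ≠ 0 := Finset.prod_ne_zero_iff.mpr fun i _ => (v i).denom_ne_zero
  have hq0 : q ≠ 0 := fun h0 => hprod0 (by rw [h0] at hprod; exact zero_dvd_iff.mp hprod)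
  refine ⟨q, hq0, hq', ?_⟩
  refine (natDegree_le_of_dvd hprod hprod0).trans ?_
  exact natDegree_prod_le _ _

end

/-- The denominators of solutions of small height are powers of `t` and `t - 1`. -/
theorem den_shape {k : Type*} [Field k] {p : ℕ} [CharP k p] {r : ℕ}
    {B C : Matrix (Fin r) (Fin r) k} {v : Fin r → RatFunc k} (hv : Sys B C v) {h : ℕ}
    (hh : ∀ i, ht (v i) ≤ h) (hp : r * h < p) :
    ∃ a e : ℕ, a + e ≤ r * h ∧
      ∀ g : k[X], X ^ a * (X - 1) ^ e ∣ g ↔ ∀ i, (v i).denom ∣ g := by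
  classical
  obtain ⟨q, hq0, hq, hdeg⟩ := exists_den v
  have hdeg' : q.natDegree ≤ r * h := by
    refine hdeg.trans ?_
    calc ∑ i, (v i).denom.natDegree ≤ ∑ _i : Fin r, h :=
          Finset.sum_le_sum fun i _ => (le_max_right _ _).trans (hh i)
      _ = r * h := by simp
  -- stability under the derivation
  have hstab : q ∣ X * (X - 1) * derivative q := by
    rw [hq]
    intro i
    have h1 := fun j => (denom_dvd_iff (v j) q).mp ((hq q).mp dvd_rfl j)
    choose w hw using h1
    rw [denom_dvd_iff]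
    refine ⟨X * (X - 1) * derivative (w i) - ∑ j, ((X - 1) * Polynomial.C (B i j) +
        X * Polynomial.C (C i j)) * w j, ?_⟩
    have h2 := congrArg (ddx k) (hw i)
    rw [Derivation.leibniz, ddx_algebraMap, ddx_algebraMap, smul_eq_mul, smul_eq_mul] at h2
    have h3 := sys_clear.mp hv i
    rw [map_sub, map_sum, map_mul _ _ (derivative (w i)), ← h2, mul_add, map_mul _ _ (derivative q)]
    have h4 : algebraMap k[X] (RatFunc k) (X * (X - 1)) *
        (algebraMap k[X] (RatFunc k) q * ddx k (v i)) =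
        ∑ j, algebraMap k[X] (RatFunc k) (((X - 1) * Polynomial.C (B i j) +
          X * Polynomial.C (C i j)) * w j) := by
      rw [mul_left_comm, h3, Finset.mul_sum]
      refine Finset.sum_congr rfl fun j _ => ?_
      rw [map_mul _ _ (w j), ← hw j]
      ring
    rw [h4]
    ring
  -- factor out the powers
  obtain ⟨q', hq'1, hq'2⟩ := exists_eq_pow_rootMultiplicity_mul_and_not_dvd q hq0 0
  have hq'0 : q' ≠ 0 := fun h0 => hq'2 (by rw [h0]; exact dvd_zero _)
  obtain ⟨q1, hq11, hq12⟩ := exists_eq_pow_rootMultiplicity_mul_and_not_dvd q' hq'0 1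
  have hq10 : q1 ≠ 0 := fun h0 => hq12 (by rw [h0]; exact dvd_zero _)
  set a := rootMultiplicity 0 q with ha
  set e := rootMultiplicity 1 q' with he
  rw [map_zero, sub_zero] at hq'1 hq'2
  rw [map_one] at hq11 hq12
  have hqq : q = X ^ a * (X - 1) ^ e * q1 := by
    conv_lhs => rw [hq'1, hq11]
    ring
  have hX1 : (X - 1 : k[X]) ≠ 0 := X_sub_C_ne_zero (1 : k)
  have hp0 : Prime (X : k[X]) := prime_X
  have hp1 : Prime (X - 1 : k[X]) := prime_X_sub_C (1 : k)
  have hn0 : ¬ (X : k[X]) ∣ q1 := fun hd => hq'2 (by rw [hq11]; exact Dvd.dvd.mul_left hd _)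
  have hder : X * (X - 1) * derivative q =
      q * ((a : k[X]) * (X - 1) + (e : k[X]) * X) + X ^ (a + 1) * (X - 1) ^ (e + 1) * derivative q1 := by
    rw [hqq]
    have hd1 : derivative (X - 1 : k[X]) = 1 := by simp
    simp only [derivative_mul, derivative_pow, derivative_X, hd1, mul_one]
    have e1 : ∀ (P : k[X]) (m : ℕ), (Polynomial.C (m : k)) * P ^ (m - 1) * P = (m : k[X]) * P ^ m := by
      intro P m
      rcases Nat.eq_zero_or_pos m with rfl | hm
      · simp
      · obtain ⟨m', rfl⟩ := Nat.exists_eq_succ_of_ne_zero hm.ne'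
        simp only [Nat.succ_eq_add_one, Nat.add_sub_cancel, map_natCast]
        ring
    have e2 := e1 X a
    have e3 := e1 (X - 1) e
    linear_combination (X - 1) * ((X - 1) ^ e * q1) * e2 + X * (X ^ a * q1) * e3
  have hdvd : q1 ∣ X * (X - 1) * derivative q1 := by
    rw [hder] at hstab
    have h1 : q ∣ X ^ (a + 1) * (X - 1) ^ (e + 1) * derivative q1 :=
      (dvd_add_right (Dvd.intro _ rfl)).mp hstab
    rw [hqq] at h1
    have h2 : X ^ (a + 1) * (X - 1) ^ (e + 1) * derivative q1 =
        X ^ a * (X - 1) ^ e * (X * (X - 1) * derivative q1) := by ring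
    rw [h2] at h1
    exact (mul_dvd_mul_iff_left (mul_ne_zero (pow_ne_zero _ X_ne_zero) (pow_ne_zero _ hX1))).mp h1
  have hcop : IsCoprime q1 (X * (X - 1)) := by
    apply IsCoprime.mul_right
    · exact ((Irreducible.coprime_iff_not_dvd hp0.irreducible).mpr hn0).symm
    · exact ((Irreducible.coprime_iff_not_dvd hp1.irreducible).mpr hq12).symm
  have hdvd' : q1 ∣ derivative q1 := hcop.dvd_of_dvd_mul_left hdvd
  have hq1deg : q1.natDegree ≤ q.natDegree :=
    natDegree_le_of_dvd ⟨X ^ a * (X - 1) ^ e, by rw [hqq]; ring⟩ hq0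
  have hconst : derivative q1 = 0 := by
    by_contra hne
    have h6 := natDegree_le_of_dvd hdvd' hne
    have h7 : q1.natDegree ≠ 0 := by
      intro h0
      apply hne
      rw [eq_C_of_natDegree_eq_zero h0, derivative_C]
    have h8 := natDegree_derivative_lt h7
    omega
  have hq1C := const_of_deriv (p := p) hconst (by omega)
  have hc0 : q1.coeff 0 ≠ 0 := fun h0 => hq10 (by rw [hq1C, h0, map_zero])
  have hunit : IsUnit q1 := by
    rw [hq1C]
    exact (IsUnit.mk0 _ hc0).map Polynomial.C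
  refine ⟨a, e, ?_, fun g => ?_⟩
  · have h1 : q.natDegree = a + e := by
      rw [hqq, natDegree_mul (mul_ne_zero (pow_ne_zero _ X_ne_zero) (pow_ne_zero _ hX1)) hq10,
        natDegree_mul (pow_ne_zero _ X_ne_zero) (pow_ne_zero _ hX1), natDegree_X_pow,
        natDegree_pow, hq1C, natDegree_C]
      have : (X - 1 : k[X]).natDegree = 1 := natDegree_X_sub_C (1 : k)
      rw [this]
      ring
    omega
  · rw [← hq, hqq]
    exact (hunit.mul_right_dvd).symm

end Pool.Agent.X98.SY
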