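import Pool.Agent.X98.SY.Str
import Pool.Agent.X98.PC.Alg

set_option autoImplicit false

open Polynomial NumberField

namespace Pool.Agent.X98.SY

open Pool.Agent.W432.PC (ddx ddx_algebraMap ddx_X)
open Pool.Agent.X98.PC (ddxHom ddxHom_mul ddxHom_eq const_rat)

/-- Solutions of a linear system independent over the constants are independent. -/
lemma indep_const {F : Type*} [Field F] (D : F →+ F) (hD : ∀ x y, D (x * y) = x * D y + y * D x)
    {r s : ℕ} (A : Matrix (Fin r) (Fin r) F) (z : Fin s → Fin r → F)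
    (hz : ∀ j i, D (z j i) = ∑ l, A i l * z j l)
    (hind : ∀ c : Fin s → F, (∀ j, D (c j) = 0) → (∀ i, ∑ j, c j * z j i = 0) → c = 0) :
    ∀ c : Fin s → F, (∀ i, ∑ j, c j * z j i = 0) → c = 0 := by
  classical
  by_contra hex
  push Not at hex
  let S : Set ℕ := {t | ∃ v : Fin s → F, v ≠ 0 ∧ (∀ i, ∑ j, v j * z j i = 0) ∧
    (Finset.univ.filter fun j => v j ≠ 0).card = t}
  have hS : S.Nonempty := by
    obtain ⟨l, h1, h2⟩ := hex
    exact ⟨_, l, h2, h1, rfl⟩
  obtain ⟨v, hv0, hv, hcard⟩ := Nat.sInf_mem hS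
  obtain ⟨j₀, hj₀⟩ := Function.ne_iff.mp hv0
  have hj₀' : v j₀ ≠ 0 := hj₀
  let w : Fin s → F := fun j => (v j₀)⁻¹ * v j
  have hw : ∀ i, ∑ j, w j * z j i = 0 := by
    intro i
    simp only [w, mul_assoc, ← Finset.mul_sum]
    rw [hv i, mul_zero]
  have hw1 : w j₀ = 1 := inv_mul_cancel₀ hj₀'
  have hD1 : D 1 = 0 := by
    have h1 := hD 1 1
    simp only [mul_one, one_mul] at h1
    simpa using h1
  have hDw : ∀ i, ∑ j, D (w j) * z j i = 0 := by
    intro i
    have h2 := congrArg D (hw i)
    rw [map_zero, map_sum] at h2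
    simp only [hD, Finset.sum_add_distrib, hz] at h2
    have h1 : ∑ j, w j * ∑ l, A i l * z j l = 0 := by
      have h3 : ∑ j, w j * ∑ l, A i l * z j l = ∑ l, A i l * ∑ j, w j * z j l := by
        simp only [Finset.mul_sum]
        rw [Finset.sum_comm]
        refine Finset.sum_congr rfl fun l _ => Finset.sum_congr rfl fun j _ => ?_
        ring
      rw [h3]
      exact Finset.sum_eq_zero fun l _ => by rw [hw l, mul_zero]
    rw [h1, zero_add] at h2
    rw [← h2]
    exact Finset.sum_congr rfl fun j _ => mul_comm _ _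
  have hDw0 : (fun j => D (w j)) = 0 := by
    by_contra hne
    have h1 : (Finset.univ.filter fun j => D (w j) ≠ 0).card ∈ S := ⟨_, hne, hDw, rfl⟩
    have h2 := Nat.sInf_le h1
    have h3 : (Finset.univ.filter fun j => D (w j) ≠ 0).card <
        (Finset.univ.filter fun j => v j ≠ 0).card := by
      apply Finset.card_lt_card
      refine ⟨fun j hj => ?_, fun hsub => ?_⟩
      · rw [Finset.mem_filter] at hj ⊢
        refine ⟨hj.1, fun h0 => hj.2 ?_⟩
        simp [w, h0]
      · have h4 := hsub (Finset.mem_filter.mpr ⟨Finset.mem_univ j₀, hj₀'⟩)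
        rw [Finset.mem_filter] at h4
        exact h4.2 (by rw [hw1]; exact hD1)
    omega
  have h0 := hind w (fun j => congrFun hDw0 j) hw
  have := congrFun h0 j₀
  rw [hw1] at this
  exact one_ne_zero this

section

variable {R : Type*} [CommRing R] {r : ℕ}

/-- The entries of the linear system for the numerators. -/
noncomputable def Op (n M : ℕ) (b c : Matrix (Fin r) (Fin r) R) (i j : Fin r) (m : ℕ) : R[X] :=
  (if i = j then (n : R[X]) * (X * (X - 1) * derivative (X ^ m) - (M : R[X]) * (2 * X - 1) * X ^ m)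
    else 0) - ((X - 1) * Polynomial.C (b i j) + X * Polynomial.C (c i j)) * X ^ m

lemma Op_map {S : Type*} [CommRing S] (ψ : R →+* S) (n M : ℕ) (b c : Matrix (Fin r) (Fin r) R)
    (i j : Fin r) (m : ℕ) : (Op n M b c i j m).map ψ = Op n M (b.map ψ) (c.map ψ) i j m := by
  unfold Op
  rw [Polynomial.map_sub]
  congr 1
  · split_ifs
    · simp [Polynomial.map_sub, Polynomial.map_mul, ← derivative_map]
    · simp
  · simp

lemma Op_degree (n M : ℕ) (b c : Matrix (Fin r) (Fin r) R) (i j : Fin r) (m H : ℕ) (hm : m ≤ H) :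
    (Op n M b c i j m).natDegree ≤ H + 2 := by
  unfold Op
  refine (natDegree_sub_le _ _).trans (max_le ?_ ?_)
  · split_ifs
    · have h1 : (X * (X - 1) * derivative (X ^ m) : R[X]).natDegree ≤ H + 2 := by
        rw [derivative_X_pow]
        refine natDegree_mul_le.trans ?_
        have h2 : (X * (X - 1) : R[X]).natDegree ≤ 2 := by
          compute_degree
        have h3 : (Polynomial.C (m : R) * X ^ (m - 1)).natDegree ≤ m - 1 :=
          natDegree_C_mul_X_pow_le _ _
        omega
      have h4 : ((M : R[X]) * (2 * X - 1) * X ^ m).natDegree ≤ H + 2 := by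
        refine natDegree_mul_le.trans ?_
        have h5 : ((M : R[X]) * (2 * X - 1)).natDegree ≤ 1 := by
          compute_degree
        have h6 : (X ^ m : R[X]).natDegree ≤ m := natDegree_X_pow_le _
        omega
      refine natDegree_mul_le.trans ?_
      have h7 : ((n : R[X])).natDegree = 0 := natDegree_natCast n
      rw [h7, zero_add]
      exact (natDegree_sub_le _ _).trans (max_le h1 h4)
    · simp
  · refine natDegree_mul_le.trans ?_
    have h5 : ((X - 1) * Polynomial.C (b i j) + X * Polynomial.C (c i j)).natDegree ≤ 1 := by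
      compute_degree
    have h6 : (X ^ m : R[X]).natDegree ≤ m := natDegree_X_pow_le _
    omega

/-- The matrix of the linear system for the numerators. -/
noncomputable def Tm (n M H : ℕ) (b c : Matrix (Fin r) (Fin r) R) :
    Matrix (Fin r × Fin (H + 3)) (Fin r × Fin (H + 1)) R :=
  Matrix.of fun il jm => (Op n M b c il.1 jm.1 jm.2).coeff il.2

end

section

variable {F : Type*} [Field F] {r : ℕ}

/-- The polynomial vector with given coefficients. -/
noncomputable def Wp {H : ℕ} (x : Fin r × Fin (H + 1) → F) (j : Fin r) : F[X] :=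
  ∑ m : Fin (H + 1), Polynomial.C (x (j, m)) * X ^ (m : ℕ)

lemma ker_iff {R : Type*} [CommRing R] (ψ : R →+* F) {n : ℕ} (hn : (n : F) ≠ 0) (M H : ℕ)
    (b c : Matrix (Fin r) (Fin r) R) (x : Fin r × Fin (H + 1) → F) :
    ((Tm n M H b c).map ψ).mulVec x = 0 ↔
      ODE (Matrix.of fun i j => ψ (b i j) / n) (Matrix.of fun i j => ψ (c i j) / n) M M (Wp x) := by
  classical
  let Rx : Fin r → F[X] := fun i => ∑ j, ∑ m : Fin (H + 1),
    Polynomial.C (x (j, m)) * Op n M (b.map ψ) (c.map ψ) i j m
  have h1 : ∀ i (l : Fin (H + 3)), ((Tm n M H b c).map ψ).mulVec x (i, l) = (Rx i).coeff l := by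
    intro i l
    rw [Matrix.mulVec, dotProduct, Fintype.sum_prod_type]
    simp only [Rx, finsetSum_coeff, coeff_C_mul]
    refine Finset.sum_congr rfl fun j _ => Finset.sum_congr rfl fun m _ => ?_
    rw [← Op_map, coeff_map, Matrix.map_apply, Tm, Matrix.of_apply, mul_comm]
  have h2 : ∀ i, (Rx i).natDegree ≤ H + 2 := by
    intro i
    refine natDegree_sum_le_of_forall_le _ _ fun j _ => natDegree_sum_le_of_forall_le _ _ fun m _ => ?_
    refine (natDegree_C_mul_le _ _).trans (Op_degree _ _ _ _ _ _ _ _ ?_)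
    have := m.2
    omega
  have h3 : ∀ i, Rx i = (n : F[X]) * (X * (X - 1) * derivative (Wp x i) -
      (M : F[X]) * (2 * X - 1) * Wp x i) -
      ∑ j, ((X - 1) * Polynomial.C (ψ (b i j)) + X * Polynomial.C (ψ (c i j))) * Wp x j := by
    intro i
    have h4 : ∀ j, ∑ m : Fin (H + 1), Polynomial.C (x (j, m)) * Op n M (b.map ψ) (c.map ψ) i j m =
        (if i = j then (n : F[X]) * (X * (X - 1) * derivative (Wp x j) -
          (M : F[X]) * (2 * X - 1) * Wp x j) else 0) -
        ((X - 1) * Polynomial.C (ψ (b i j)) + X * Polynomial.C (ψ (c i j))) * Wp x j := by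
      intro j
      simp only [Op, mul_sub, Finset.sum_sub_distrib, Matrix.map_apply]
      congr 1
      · split_ifs with hij
        · simp only [Wp, derivative_sum, derivative_mul, derivative_C, zero_mul, zero_add,
            Finset.mul_sum]
          rw [← Finset.sum_sub_distrib]
          refine Finset.sum_congr rfl fun m _ => ?_
          ring
        · simp
      · simp only [Wp, Finset.mul_sum]
        refine Finset.sum_congr rfl fun m _ => ?_
        ring
    show ∑ j, ∑ m : Fin (H + 1), Polynomial.C (x (j, m)) * Op n M (b.map ψ) (c.map ψ) i j m = _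
    rw [Finset.sum_congr rfl fun j _ => h4 j, Finset.sum_sub_distrib, Finset.sum_ite_eq,
      if_pos (Finset.mem_univ _)]
  have h5 : ((Tm n M H b c).map ψ).mulVec x = 0 ↔ ∀ i, Rx i = 0 := by
    constructor
    · intro h i
      ext l
      by_cases hl : l < H + 3
      · rw [← h1 i ⟨l, hl⟩, h]; simp
      · rw [coeff_eq_zero_of_natDegree_lt (by have := h2 i; omega), coeff_zero]
    · intro h
      ext il
      obtain ⟨i, l⟩ := il
      rw [h1, h i]; simp
  rw [h5]
  unfold ODE
  refine forall_congr' fun i => ?_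
  rw [h3]
  have hnC : (n : F[X]) ≠ 0 := by
    rw [← map_natCast (Polynomial.C : F →+* F[X]) n]
    exact C_ne_zero.mpr hn
  have h6 : ∑ j, ((X - 1) * Polynomial.C (ψ (b i j)) + X * Polynomial.C (ψ (c i j))) * Wp x j =
      (n : F[X]) * ∑ j, ((X - 1) * Polynomial.C (ψ (b i j) / n) +
        X * Polynomial.C (ψ (c i j) / n)) * Wp x j := by
    rw [Finset.mul_sum]
    refine Finset.sum_congr rfl fun j _ => ?_
    have h7 : ∀ q : F, Polynomial.C q = (n : F[X]) * Polynomial.C (q / n) := by
      intro q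
      rw [← map_natCast (Polynomial.C : F →+* F[X]) n, ← map_mul, mul_div_cancel₀ _ hn]
    rw [h7 (ψ (b i j)), h7 (ψ (c i j))]
    have h8 : ∀ q : F, (q / n) = q / n := fun _ => rfl
    rw [← h7 (ψ (b i j)), ← h7 (ψ (c i j)), h7 (ψ (b i j)), h7 (ψ (c i j))]
    ring
  rw [h6, ← mul_sub, mul_eq_zero, or_iff_right hnC]
  simp only [Matrix.of_apply]
  rw [sub_eq_zero]
  constructor
  · intro h
    rw [← h]
    ring
  · intro h
    rw [h]
    ring

end

universe u v

/-- Integral eigenvalues modulo `p` which are small compared with `p` are bounded. -/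
def Eig {K : Type u} [Field K] {r : ℕ} (m : Matrix (Fin r) (Fin r) (𝓞 K)) (D : ℕ) : Prop :=
  ∃ C : ℕ, ∀ (y : ℤ) (p : ℕ) (k : Type v) [Field k] [CharP k p] (φ : 𝓞 K →+* k) (u : Fin r → k),
      u ≠ 0 → (m.map φ).mulVec u = (y : k) • u →
      C * (y.natAbs + 1) ^ D < p → y.natAbs ≤ C

/-- Solutions of small height modulo one prime give solutions in characteristic zero. -/
theorem main {K : Type u} [Field K] [NumberField K] {r n : ℕ} (hn : 0 < n)
    (b c : Matrix (Fin r) (Fin r) (𝓞 K)) (D : ℕ) (hD : 0 < r → D ≠ 0)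
    (hb : Eig.{u, v} b D) (hc : Eig.{u, v} c D) (hbc : Eig.{u, v} (b + c) D) :
    ∃ C : ℕ, ∀ (p : ℕ) (k : Type v) [Field k]
      [CharP k p] (φ : 𝓞 K →+* k) (s : ℕ) (y : Fin s → Fin r → RatFunc k),
      LinearIndependent k y →
      (∀ j, Sys (Matrix.of fun i l => φ (b i l) / n) (Matrix.of fun i l => φ (c i l) / n) (y j)) →
      (∀ j i, C * (ht (y j i) + 1) ^ D < p) →
      ∃ z : Fin s → Fin r → RatFunc K, LinearIndependent (RatFunc K) z ∧
        ∀ j, Sys (Matrix.of fun i l => algebraMap (𝓞 K) K (b i l) / n)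
          (Matrix.of fun i l => algebraMap (𝓞 K) K (c i l) / n) (z j) := by
  classical
  obtain ⟨C1, h1⟩ := hb
  obtain ⟨C2, h2⟩ := hc
  obtain ⟨C3, h3⟩ := hbc
  obtain ⟨C4, h4⟩ := ker_count (Tm n (C1 + C2) ((C1 + C2 + C3) + 2 * (C1 + C2)) b c)
  set M := C1 + C2 with hM
  set H := (C1 + C2 + C3) + 2 * (C1 + C2) with hH
  refine ⟨(C1 + C2 + C3 + 1) * (n * (3 * r + 1)) ^ D + C4 + n + r, ?_⟩
  intro p k _ _ φ s y hind hsys hht
  -- a common bound for each solution
  have hy0 : ∀ j, y j ≠ 0 := fun j => hind.ne_zero j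
  have hbd : ∀ j, ∃ h : ℕ, (∀ i, ht (y j i) ≤ h) ∧
      ((C1 + C2 + C3 + 1) * (n * (3 * r + 1)) ^ D + C4 + n + r) * (h + 1) ^ D < p ∧ 0 < r := by
    intro j
    obtain ⟨i, hi⟩ := Function.ne_iff.mp (hy0 j)
    have hne : (Finset.univ : Finset (Fin r)).Nonempty := ⟨i, Finset.mem_univ _⟩
    obtain ⟨i₀, _, hi₀⟩ := Finset.exists_mem_eq_sup _ hne fun i => ht (y j i)
    refine ⟨Finset.univ.sup fun i => ht (y j i), fun i =>
      Finset.le_sup (f := fun i => ht (y j i)) (Finset.mem_univ i), ?_, ?_⟩
    · rw [hi₀]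
      exact hht j i₀
    · have := i.2
      omega
  by_cases hs : s = 0
  · subst hs
    exact ⟨fun j => j.elim0, linearIndependent_empty_type, fun j => j.elim0⟩
  have hpos : ∀ m : ℕ, 0 < (m + 1) ^ D := fun m => pow_pos (Nat.succ_pos _) _
  have hp4 : C4 < p ∧ n < p := by
    obtain ⟨h, _, h5, _⟩ := hbd ⟨0, Nat.pos_of_ne_zero hs⟩
    have h6 : (C1 + C2 + C3 + 1) * (n * (3 * r + 1)) ^ D + C4 + n + r ≤
        ((C1 + C2 + C3 + 1) * (n * (3 * r + 1)) ^ D + C4 + n + r) * (h + 1) ^ D :=
      Nat.le_mul_of_pos_right _ (hpos h)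
    constructor <;> omega
  have hnk : (n : k) ≠ 0 := by
    rw [ne_eq, CharP.cast_eq_zero_iff k p]
    intro h5
    exact absurd (Nat.le_of_dvd hn h5) (by omega)
  have hX1 : (X - 1 : k[X]) ≠ 0 := X_sub_C_ne_zero (1 : k)
  -- the numerators
  have hnum : ∀ j, ∃ W : Fin r → k[X], (∀ i, (W i).natDegree ≤ H) ∧
      (∀ i, algebraMap k[X] (RatFunc k) (X ^ M * (X - 1) ^ M) * y j i =
        algebraMap k[X] (RatFunc k) (W i)) := by
    intro j
    obtain ⟨h, hh, hlt, hr⟩ := hbd j
    have hD1 : D ≠ 0 := hD hr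
    have hrh : r * h < p := by
      have h5 : h + 1 ≤ (h + 1) ^ D := Nat.le_self_pow hD1 _
      have h6 : r * (h + 1) ≤ r * (h + 1) ^ D := Nat.mul_le_mul_left _ h5
      have h7 : r * (h + 1) ^ D ≤
          ((C1 + C2 + C3 + 1) * (n * (3 * r + 1)) ^ D + C4 + n + r) * (h + 1) ^ D :=
        Nat.mul_le_mul_right _ (by omega)
      have h8 : r * h ≤ r * (h + 1) := Nat.mul_le_mul_left _ (by omega)
      omega
    obtain ⟨a, e, d, w, hae, hd, hw, hwd, hea, hee, hed⟩ := struct (hsys j) (hy0 j) hh hrh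
    -- the bound used three times
    have hkey : ∀ (Ci q : ℕ), Ci ≤ C1 + C2 + C3 + 1 → q ≤ n * ((3 * r + 1) * h) →
        Ci * (q + 1) ^ D < p := by
      intro Ci q hCi hq
      have h5 : q + 1 ≤ n * (3 * r + 1) * (h + 1) := by
        have h6 : 1 ≤ n * (3 * r + 1) := Nat.mul_pos hn (by omega)
        calc q + 1 ≤ n * ((3 * r + 1) * h) + n * (3 * r + 1) := by omega
          _ = n * (3 * r + 1) * (h + 1) := by ring
      calc Ci * (q + 1) ^ D ≤ (C1 + C2 + C3 + 1) * (n * (3 * r + 1) * (h + 1)) ^ D :=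
            Nat.mul_le_mul hCi (Nat.pow_le_pow_left h5 _)
        _ = (C1 + C2 + C3 + 1) * (n * (3 * r + 1)) ^ D * (h + 1) ^ D := by
            rw [mul_pow]; ring
        _ ≤ ((C1 + C2 + C3 + 1) * (n * (3 * r + 1)) ^ D + C4 + n + r) * (h + 1) ^ D :=
            Nat.mul_le_mul_right _ (by omega)
        _ < p := hlt
    -- passing from `b / n` to `b`
    have hscale : ∀ (m : Matrix (Fin r) (Fin r) (𝓞 K)) (q : ℤ) (u : Fin r → k),
        (Matrix.of fun i l => φ (m i l) / n).mulVec u = ((q : k)) • u →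
        (m.map φ).mulVec u = (((n : ℤ) * q : ℤ) : k) • u := by
      intro m q u hu
      ext i
      have h5 := congrFun hu i
      rw [Matrix.mulVec, dotProduct, Pi.smul_apply, smul_eq_mul] at h5 ⊢
      simp only [Matrix.of_apply, Matrix.map_apply] at h5 ⊢
      push_cast
      rw [mul_assoc, ← h5, Finset.mul_sum]
      refine Finset.sum_congr rfl fun l _ => ?_
      field_simp
    have ha : a ≤ C1 := by
      by_cases ha0 : a = 0
      · omega
      obtain ⟨u, hu0, hu⟩ := hea ha0
      have h5 := h1 ((n : ℤ) * (-(a : ℤ))) p k φ u hu0 (hscale b (-(a : ℤ)) u (by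
        rw [hu]; push_cast; rfl))
      have h6 : ((n : ℤ) * (-(a : ℤ))).natAbs = n * a := by
        rw [Int.natAbs_mul, Int.natAbs_neg, Int.natAbs_natCast, Int.natAbs_natCast]
      rw [h6] at h5
      have h7 : n * a ≤ C1 := by
        refine h5 (hkey _ _ (by omega) (Nat.mul_le_mul_left _ ?_))
        have : (3 * r + 1) * h = 3 * (r * h) + h := by ring
        omega
      exact (Nat.le_mul_of_pos_left a hn).trans h7
    have he : e ≤ C2 := by
      by_cases he0 : e = 0
      · omega
      obtain ⟨u, hu0, hu⟩ := hee he0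
      have h5 := h2 ((n : ℤ) * (-(e : ℤ))) p k φ u hu0 (hscale c (-(e : ℤ)) u (by
        rw [hu]; push_cast; rfl))
      have h6 : ((n : ℤ) * (-(e : ℤ))).natAbs = n * e := by
        rw [Int.natAbs_mul, Int.natAbs_neg, Int.natAbs_natCast, Int.natAbs_natCast]
      rw [h6] at h5
      have h7 : n * e ≤ C2 := by
        refine h5 (hkey _ _ (by omega) (Nat.mul_le_mul_left _ ?_))
        have : (3 * r + 1) * h = 3 * (r * h) + h := by ring
        omega
      exact (Nat.le_mul_of_pos_left e hn).trans h7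
    have hdd : d ≤ C1 + C2 + C3 := by
      obtain ⟨u, hu0, hu⟩ := hed
      have h5 := h3 ((n : ℤ) * ((d : ℤ) - a - e)) p k φ u hu0 (hscale (b + c) ((d : ℤ) - a - e) u (by
        have h6 : (Matrix.of fun i l => φ ((b + c) i l) / n) =
            (Matrix.of fun i l => φ (b i l) / (n : k)) + (Matrix.of fun i l => φ (c i l) / n) := by
          ext i l
          simp [add_div]
        rw [h6, hu]
        push_cast
        rfl))
      have h6 : ((n : ℤ) * ((d : ℤ) - a - e)).natAbs = n * ((d : ℤ) - a - e).natAbs := by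
        rw [Int.natAbs_mul, Int.natAbs_natCast]
      rw [h6] at h5
      have h7 : n * ((d : ℤ) - a - e).natAbs ≤ C3 := by
        refine h5 (hkey _ _ (by omega) (Nat.mul_le_mul_left _ ?_))
        have : (3 * r + 1) * h = 3 * (r * h) + h := by ring
        omega
      have h8 : ((d : ℤ) - a - e).natAbs ≤ C3 := (Nat.le_mul_of_pos_left _ hn).trans h7
      omega
    refine ⟨fun i => X ^ (M - a) * (X - 1) ^ (M - e) * w i, fun i => ?_, fun i => ?_⟩
    · have h5 : (X ^ (M - a) * (X - 1) ^ (M - e) * w i).natDegree ≤ (M - a) + (M - e) + d := by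
        refine natDegree_mul_le.trans ?_
        have h6 : (X ^ (M - a) * (X - 1) ^ (M - e) : k[X]).natDegree ≤ (M - a) + (M - e) := by
          refine natDegree_mul_le.trans ?_
          have h7 : ((X - 1 : k[X]) ^ (M - e)).natDegree ≤ M - e := by
            refine natDegree_pow_le.trans ?_
            have : (X - 1 : k[X]).natDegree = 1 := natDegree_X_sub_C (1 : k)
            rw [this, mul_one]
          have h8 : (X ^ (M - a) : k[X]).natDegree ≤ M - a := natDegree_X_pow_le _
          omega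
        have := hwd i
        omega
      show (X ^ (M - a) * (X - 1) ^ (M - e) * w i).natDegree ≤ H
      omega
    · have h5 : (X ^ M * (X - 1) ^ M : k[X]) =
          X ^ (M - a) * (X - 1) ^ (M - e) * (X ^ a * (X - 1) ^ e) := by
        have h6 : M = (M - a) + a := by omega
        have h7 : M = (M - e) + e := by omega
        calc (X ^ M * (X - 1) ^ M : k[X]) = X ^ ((M - a) + a) * (X - 1) ^ ((M - e) + e) := by
              rw [← h6, ← h7]
          _ = _ := by rw [pow_add, pow_add]; ring
      rw [h5, map_mul, mul_assoc, hw i, ← map_mul]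
  choose W hWd hW using hnum
  -- coordinates
  let x : Fin s → Fin r × Fin (H + 1) → k := fun j im => (W j im.1).coeff im.2
  have hxW : ∀ j, Wp (x j) = W j := by
    intro j
    ext1 i
    have h5 := (W j i).as_sum_range' (H + 1) (by have := hWd j i; omega)
    rw [Wp, h5, Finset.sum_range]
    refine Finset.sum_congr rfl fun m _ => ?_
    rw [C_mul_X_pow_eq_monomial]
  have hker : ∀ j, ((Tm n M H b c).map φ).mulVec (x j) = 0 := by
    intro j
    rw [ker_iff φ hnk, hxW]
    exact (ode_iff (hW j)).mp (hsys j)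
  have hxind : LinearIndependent k x := by
    rw [Fintype.linearIndependent_iff] at hind ⊢
    intro g hg
    apply hind
    ext1 i
    have h5 : ∑ j, Polynomial.C (g j) * W j i = 0 := by
      ext m
      rw [finsetSum_coeff, coeff_zero]
      by_cases hm : m < H + 1
      · have h6 := congrFun hg (i, ⟨m, hm⟩)
        rw [Finset.sum_apply] at h6
        simpa [x] using h6
      · refine Finset.sum_eq_zero fun j _ => ?_
        rw [coeff_C_mul, coeff_eq_zero_of_natDegree_lt (by have := hWd j i; omega), mul_zero]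
    have h6 : algebraMap k[X] (RatFunc k) (X ^ M * (X - 1) ^ M) *
        (∑ j, g j • y j) i = 0 := by
      rw [Finset.sum_apply, Finset.mul_sum]
      have h7 := congrArg (algebraMap k[X] (RatFunc k)) h5
      rw [map_zero, map_sum] at h7
      rw [← h7]
      refine Finset.sum_congr rfl fun j _ => ?_
      rw [map_mul _ (Polynomial.C (g j)), ← hW j i, Pi.smul_apply, Algebra.smul_def,
        RatFunc.algebraMap_C]
      have h8 : algebraMap k (RatFunc k) (g j) = RatFunc.C (g j) := rfl
      rw [h8]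
      ring
    refine (mul_eq_zero.mp h6).resolve_left ?_
    rw [map_eq_zero_iff _ inj_alg]
    exact mul_ne_zero (pow_ne_zero _ X_ne_zero) (pow_ne_zero _ hX1)
  obtain ⟨u, hu, huk⟩ := h4 p hp4.1 k φ s x hxind hker
  have hnK : (n : K) ≠ 0 := by exact_mod_cast hn.ne'
  have hXK : (X - 1 : K[X]) ≠ 0 := X_sub_C_ne_zero (1 : K)
  have hg0 : algebraMap K[X] (RatFunc K) (X ^ M * (X - 1) ^ M) ≠ 0 := by
    rw [ne_eq, map_eq_zero_iff _ inj_alg]
    exact mul_ne_zero (pow_ne_zero _ X_ne_zero) (pow_ne_zero _ hXK)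
  let z : Fin s → Fin r → RatFunc K := fun j i =>
    algebraMap K[X] (RatFunc K) (Wp (u j) i) / algebraMap K[X] (RatFunc K) (X ^ M * (X - 1) ^ M)
  have hzW : ∀ j i, algebraMap K[X] (RatFunc K) (X ^ M * (X - 1) ^ M) * z j i =
      algebraMap K[X] (RatFunc K) (Wp (u j) i) := fun j i => mul_div_cancel₀ _ hg0
  have hzsys : ∀ j, Sys (Matrix.of fun i l => algebraMap (𝓞 K) K (b i l) / n)
      (Matrix.of fun i l => algebraMap (𝓞 K) K (c i l) / n) (z j) := by
    intro j
    rw [ode_iff (hzW j)]
    exact (ker_iff (algebraMap (𝓞 K) K) hnK M H b c (u j)).mp (huk j)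
  refine ⟨z, ?_, hzsys⟩
  rw [Fintype.linearIndependent_iff]
  intro g hg
  have h5 := indep_const (ddxHom K) (ddxHom_mul K)
    (Matrix.of fun i l => RatFunc.C (algebraMap (𝓞 K) K (b i l) / n) / RatFunc.X +
      RatFunc.C (algebraMap (𝓞 K) K (c i l) / n) / (RatFunc.X - 1)) z
    (fun j i => by rw [ddxHom_eq]; exact hzsys j i) (by
      intro γ hγ hsum
      rw [ddxHom_eq] at hγ
      choose γ' hγ' using fun j => const_rat (hγ j)
      rw [Fintype.linearIndependent_iff] at hu
      have h6 := hu γ' (by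
        ext ⟨i, m⟩
        rw [Finset.sum_apply, Pi.zero_apply]
        have h7 : ∑ j, Polynomial.C (γ' j) * Wp (u j) i = 0 := by
          apply inj_alg
          rw [map_sum, map_zero]
          have h8 := congrArg (fun q => algebraMap K[X] (RatFunc K) (X ^ M * (X - 1) ^ M) * q)
            (hsum i)
          simp only [mul_zero, Finset.mul_sum] at h8
          rw [← h8]
          refine Finset.sum_congr rfl fun j _ => ?_
          rw [map_mul _ (Polynomial.C (γ' j)), ← hzW j i, ← hγ' j]
          ring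
        have h8 := congrArg (fun q => q.coeff (m : ℕ)) h7
        simp only [finsetSum_coeff, coeff_C_mul, coeff_zero] at h8
        rw [← h8]
        refine Finset.sum_congr rfl fun j _ => ?_
        rw [Pi.smul_apply, smul_eq_mul]
        congr 1
        rw [Wp, finsetSum_coeff]
        rw [Finset.sum_eq_single m]
        · rw [coeff_C_mul_X_pow, if_pos rfl]
        · intro m' _ hm'
          rw [coeff_C_mul_X_pow, if_neg]
          intro h9
          exact hm' (Fin.ext h9.symm)
        · intro h9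
          exact absurd (Finset.mem_univ _) h9)
      ext1 j
      rw [hγ' j, h6 j, map_zero, map_zero]
      rfl)
  have h6 := h5 g (fun i => by
    have := congrFun hg i
    rw [Finset.sum_apply] at this
    exact this)
  intro j
  exact congrFun h6 j

end Pool.Agent.X98.SY
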