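import Pool.Agent.X98.SY.Main
import Pool.Agent.W432.HK.Frob

set_option autoImplicit false

open Polynomial NumberField

namespace Pool.Agent.X98.SY

open Pool.Agent.W432.HK (exists_frob_point)

/-- The recursion for `(n t (t - 1)) ^ k ∇ ^ k`. -/
def Rec {R : Type*} [CommRing R] {r : ℕ} (n : ℕ) (b c : Matrix (Fin r) (Fin r) R)
    (Q : ℕ → Matrix (Fin r) (Fin r) R[X]) : Prop :=
  Q 0 = 1 ∧ ∀ k : ℕ, Q (k + 1) =
    (Polynomial.C (n : R) * ((X : R[X]) * (X - 1))) • (Q k).map (fun f => derivative f)
      - ((k : R[X]) * Polynomial.C (n : R) * (2 * (X : R[X]) - 1)) • Q k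
      - (((X : R[X]) - 1) • b.map (fun x => Polynomial.C x) +
          (X : R[X]) • c.map (fun x => Polynomial.C x)) * Q k

/-- The `p`-curvature of the reduction of the system modulo `P` vanishes. -/
def PCurvZero {K : Type*} [Field K] {r : ℕ} (n : ℕ) (b c : Matrix (Fin r) (Fin r) (𝓞 K))
    (P : Ideal (𝓞 K)) : Prop :=
  ∀ Q : ℕ → Matrix (Fin r) (Fin r) (𝓞 K ⧸ P)[X],
    Rec n (b.map (Ideal.Quotient.mk P)) (c.map (Ideal.Quotient.mk P)) Q →
      Q (ringChar (𝓞 K ⧸ P)) = 0

section

variable {R : Type*} [CommRing R] {r : ℕ}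

lemma rec_exists (n : ℕ) (b c : Matrix (Fin r) (Fin r) R) : ∃ Q, Rec n b c Q := by
  refine ⟨fun k => Nat.rec (1 : Matrix (Fin r) (Fin r) R[X]) (fun k Qk =>
    (Polynomial.C (n : R) * ((X : R[X]) * (X - 1))) • Qk.map (fun f => derivative f)
      - ((k : R[X]) * Polynomial.C (n : R) * (2 * (X : R[X]) - 1)) • Qk
      - (((X : R[X]) - 1) • b.map (fun x => Polynomial.C x) +
          (X : R[X]) • c.map (fun x => Polynomial.C x)) * Qk) k,
    rfl, fun _ => rfl⟩

lemma rec_entry {n : ℕ} {b c : Matrix (Fin r) (Fin r) R} {Q : ℕ → Matrix (Fin r) (Fin r) R[X]}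
    (h : Rec n b c Q) (k : ℕ) (i j : Fin r) : Q (k + 1) i j =
      Polynomial.C (n : R) * (X * (X - 1)) * derivative (Q k i j)
        - (k : R[X]) * Polynomial.C (n : R) * (2 * X - 1) * Q k i j
        - ∑ l, ((X - 1) * Polynomial.C (b i l) + X * Polynomial.C (c i l)) * Q k l j := by
  rw [h.2 k]
  simp only [Matrix.sub_apply, Matrix.smul_apply, Matrix.map_apply, smul_eq_mul, Matrix.mul_apply,
    Matrix.add_apply]

lemma Rec.map {S : Type*} [CommRing S] (ψ : R →+* S) {n : ℕ} {b c : Matrix (Fin r) (Fin r) R}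
    {Q : ℕ → Matrix (Fin r) (Fin r) R[X]} (h : Rec n b c Q) :
    Rec n (b.map ψ) (c.map ψ) fun k => (Q k).map (Polynomial.map ψ) := by
  refine ⟨?_, fun k => ?_⟩
  · show (Q 0).map (Polynomial.map ψ) = 1
    rw [h.1]
    ext1 i j
    rw [Matrix.map_apply, Matrix.one_apply, Matrix.one_apply]
    split_ifs <;> simp
  · ext1 i j
    show ((Q (k + 1)).map (Polynomial.map ψ)) i j = _
    rw [Matrix.map_apply, rec_entry h]
    simp only [Matrix.sub_apply, Matrix.smul_apply, Matrix.map_apply, smul_eq_mul,
      Matrix.mul_apply, Matrix.add_apply, Polynomial.map_sub, Polynomial.map_mul,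
      Polynomial.map_add, Polynomial.map_C, Polynomial.map_X, Polynomial.map_one,
      Polynomial.map_natCast, Polynomial.map_sum, derivative_map, map_natCast,
      Polynomial.map_ofNat]

/-- Evaluation at `0` on an eigenvector of `b`. -/
lemma rec_zero {n : ℕ} {b c : Matrix (Fin r) (Fin r) R} {Q : ℕ → Matrix (Fin r) (Fin r) R[X]}
    (h : Rec n b c Q) {β : R} {u : Fin r → R} (hu : b.mulVec u = β • u) (k : ℕ) (i : Fin r) :
    ∑ j, (Q k i j).eval 0 * u j = (∏ m ∈ Finset.range k, (β + (m : R) * n)) * u i := by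
  induction k generalizing i with
  | zero =>
    rw [h.1]
    simp [Matrix.one_apply, apply_ite]
  | succ k ih =>
    have h1 : ∀ j, (Q (k + 1) i j).eval 0 = (k : R) * n * (Q k i j).eval 0 +
        ∑ l, b i l * (Q k l j).eval 0 := by
      intro j
      rw [rec_entry h]
      simp only [eval_sub, eval_mul, eval_C, eval_X, eval_one, eval_natCast, eval_finsetSum,
        eval_add, eval_ofNat, zero_mul, mul_zero, zero_sub, add_zero]
      have h2 : ∑ l, (-1 * b i l) * eval 0 (Q k l j) = -∑ l, b i l * eval 0 (Q k l j) := by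
        rw [← Finset.sum_neg_distrib]
        exact Finset.sum_congr rfl fun l _ => by ring
      rw [h2]
      ring
    simp only [h1, add_mul, Finset.sum_add_distrib]
    have h3 : ∑ j, (k : R) * n * (Q k i j).eval 0 * u j =
        (k : R) * n * ∑ j, (Q k i j).eval 0 * u j := by
      rw [Finset.mul_sum]
      exact Finset.sum_congr rfl fun j _ => by ring
    have h4 : ∑ j, (∑ l, b i l * (Q k l j).eval 0) * u j =
        ∑ l, b i l * ∑ j, (Q k l j).eval 0 * u j := by
      simp only [Finset.sum_mul, Finset.mul_sum]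
      rw [Finset.sum_comm]
      exact Finset.sum_congr rfl fun l _ => Finset.sum_congr rfl fun j _ => by ring
    rw [h3, h4, ih i, Finset.sum_congr rfl fun l _ => by rw [ih l]]
    have h5 : ∑ l, b i l * ((∏ m ∈ Finset.range k, (β + (m : R) * n)) * u l) =
        (∏ m ∈ Finset.range k, (β + (m : R) * n)) * (β * u i) := by
      have h6 := congrFun hu i
      rw [Matrix.mulVec, dotProduct, Pi.smul_apply, smul_eq_mul] at h6
      rw [← h6, Finset.mul_sum]
      exact Finset.sum_congr rfl fun l _ => by ring
    rw [h5, Finset.prod_range_succ]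
    ring

/-- Evaluation at `1` on an eigenvector of `c`. -/
lemma rec_one {n : ℕ} {b c : Matrix (Fin r) (Fin r) R} {Q : ℕ → Matrix (Fin r) (Fin r) R[X]}
    (h : Rec n b c Q) {β : R} {u : Fin r → R} (hu : c.mulVec u = β • u) (k : ℕ) (i : Fin r) :
    ∑ j, (Q k i j).eval 1 * u j = (∏ m ∈ Finset.range k, (-(β + (m : R) * n))) * u i := by
  induction k generalizing i with
  | zero =>
    rw [h.1]
    simp [Matrix.one_apply, apply_ite]
  | succ k ih =>
    have h1 : ∀ j, (Q (k + 1) i j).eval 1 = -((k : R) * n * (Q k i j).eval 1 +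
        ∑ l, c i l * (Q k l j).eval 1) := by
      intro j
      rw [rec_entry h]
      simp only [eval_sub, eval_mul, eval_C, eval_X, eval_one, eval_natCast, eval_finsetSum,
        eval_add, eval_ofNat, zero_mul, mul_zero, zero_sub, zero_add, sub_self, one_mul, mul_one]
      ring
    simp only [h1, neg_mul, add_mul, Finset.sum_neg_distrib, Finset.sum_add_distrib]
    have h3 : ∑ j, (k : R) * n * (Q k i j).eval 1 * u j =
        (k : R) * n * ∑ j, (Q k i j).eval 1 * u j := by
      rw [Finset.mul_sum]
      exact Finset.sum_congr rfl fun j _ => by ring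
    have h4 : ∑ j, (∑ l, c i l * (Q k l j).eval 1) * u j =
        ∑ l, c i l * ∑ j, (Q k l j).eval 1 * u j := by
      simp only [Finset.sum_mul, Finset.mul_sum]
      rw [Finset.sum_comm]
      exact Finset.sum_congr rfl fun l _ => Finset.sum_congr rfl fun j _ => by ring
    rw [h3, h4, ih i, Finset.sum_congr rfl fun l _ => by rw [ih l]]
    have h5 : ∑ l, c i l * ((∏ m ∈ Finset.range k, (-(β + (m : R) * n))) * u l) =
        (∏ m ∈ Finset.range k, (-(β + (m : R) * n))) * (β * u i) := by
      have h6 := congrFun hu i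
      rw [Matrix.mulVec, dotProduct, Pi.smul_apply, smul_eq_mul] at h6
      rw [← h6, Finset.mul_sum]
      exact Finset.sum_congr rfl fun l _ => by ring
    rw [h5, Finset.prod_range_succ]
    ring

lemma rec_degree {n : ℕ} {b c : Matrix (Fin r) (Fin r) R} {Q : ℕ → Matrix (Fin r) (Fin r) R[X]}
    (h : Rec n b c Q) (k : ℕ) (i j : Fin r) : (Q k i j).natDegree ≤ k := by
  induction k generalizing i j with
  | zero =>
    rw [h.1, Matrix.one_apply]
    split_ifs <;> simp
  | succ k ih =>
    rw [rec_entry h]
    refine (natDegree_sub_le _ _).trans (max_le ((natDegree_sub_le _ _).trans (max_le ?_ ?_)) ?_)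
    · rcases Nat.eq_zero_or_pos (Q k i j).natDegree with h0 | h0
      · rw [eq_C_of_natDegree_eq_zero h0, derivative_C, mul_zero]; simp
      refine natDegree_mul_le.trans ?_
      have h1 : (Polynomial.C (n : R) * (X * (X - 1))).natDegree ≤ 2 := by compute_degree
      have h2 := natDegree_derivative_le (Q k i j)
      have h3 := ih i j
      omega
    · refine natDegree_mul_le.trans ?_
      have h1 : ((k : R[X]) * Polynomial.C (n : R) * (2 * X - 1)).natDegree ≤ 1 := by
        compute_degree
      have h3 := ih i j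
      omega
    · refine natDegree_sum_le_of_forall_le _ _ fun l _ => natDegree_mul_le.trans ?_
      have h1 : ((X - 1) * Polynomial.C (b i l) + X * Polynomial.C (c i l)).natDegree ≤ 1 := by
        compute_degree
      have h3 := ih l j
      omega

/-- The leading coefficients on an eigenvector of `b + c`. -/
lemma rec_inf {n : ℕ} {b c : Matrix (Fin r) (Fin r) R} {Q : ℕ → Matrix (Fin r) (Fin r) R[X]}
    (h : Rec n b c Q) {β : R} {u : Fin r → R} (hu : (b + c).mulVec u = β • u) (k : ℕ)
    (i : Fin r) :
    ∑ j, (Q k i j).coeff k * u j = (∏ m ∈ Finset.range k, (-(β + (m : R) * n))) * u i := by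
  induction k generalizing i with
  | zero =>
    rw [h.1, Finset.sum_eq_single i]
    · simp
    · intro j _ hj
      rw [Matrix.one_apply_ne hj.symm]
      simp
    · simp
  | succ k ih =>
    have hz : ∀ l j, (Q k l j).coeff (k + 1) = 0 := fun l j =>
      coeff_eq_zero_of_natDegree_lt (by have := rec_degree h k l j; omega)
    have h1 : ∀ j, (Q (k + 1) i j).coeff (k + 1) = -((k : R) * n * (Q k i j).coeff k +
        ∑ l, (b i l + c i l) * (Q k l j).coeff k) := by
      intro j
      rw [rec_entry h, coeff_sub, coeff_sub, finsetSum_coeff]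
      have e1 : (Polynomial.C (n : R) * (X * (X - 1)) * derivative (Q k i j)).coeff (k + 1) =
          (k : R) * n * (Q k i j).coeff k := by
        have h4 : Polynomial.C (n : R) * (X * (X - 1)) * derivative (Q k i j) =
            Polynomial.C (n : R) * (X * (X * derivative (Q k i j)) - X * derivative (Q k i j)) := by
          ring
        rw [h4, coeff_C_mul, coeff_sub, coeff_X_mul, coeff_X_mul]
        have h5 : (derivative (Q k i j)).coeff k = 0 := by
          rw [coeff_derivative, hz i j, zero_mul]
        rw [h5, sub_zero]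
        rcases Nat.eq_zero_or_pos k with h6 | h6
        · rw [h6]; simp
        · obtain ⟨d', hd'⟩ := Nat.exists_eq_succ_of_ne_zero h6.ne'
          rw [hd', Nat.succ_eq_add_one, coeff_X_mul, coeff_derivative]
          push_cast
          ring
      have e2 : ((k : R[X]) * Polynomial.C (n : R) * (2 * X - 1) * Q k i j).coeff (k + 1) =
          2 * ((k : R) * n * (Q k i j).coeff k) := by
        have h4 : (k : R[X]) * Polynomial.C (n : R) * (2 * X - 1) * Q k i j =
            Polynomial.C ((k : R) * n) * (Polynomial.C 2 * (X * Q k i j) - Q k i j) := by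
          simp only [map_mul, map_natCast, map_ofNat]
          ring
        rw [h4, coeff_C_mul, coeff_sub, coeff_C_mul, coeff_X_mul, hz i j]
        ring
      have e3 : ∀ l, (((X - 1) * Polynomial.C (b i l) + X * Polynomial.C (c i l)) *
          Q k l j).coeff (k + 1) = (b i l + c i l) * (Q k l j).coeff k := by
        intro l
        have h4 : ((X - 1) * Polynomial.C (b i l) + X * Polynomial.C (c i l)) * Q k l j =
            Polynomial.C (b i l + c i l) * (X * Q k l j) - Polynomial.C (b i l) * Q k l j := by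
          rw [map_add]
          ring
        rw [h4, coeff_sub, coeff_C_mul, coeff_C_mul, coeff_X_mul, hz l j]
        ring
      rw [e1, e2, Finset.sum_congr rfl fun l _ => e3 l]
      ring
    simp only [h1, neg_mul, add_mul _ _ (u _), Finset.sum_neg_distrib, Finset.sum_add_distrib]
    have h3 : ∑ j, (k : R) * n * (Q k i j).coeff k * u j =
        (k : R) * n * ∑ j, (Q k i j).coeff k * u j := by
      rw [Finset.mul_sum]
      exact Finset.sum_congr rfl fun j _ => by ring
    have h4 : ∑ j, (∑ l, (b i l + c i l) * (Q k l j).coeff k) * u j =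
        ∑ l, (b i l + c i l) * ∑ j, (Q k l j).coeff k * u j := by
      simp only [Finset.sum_mul, Finset.mul_sum]
      rw [Finset.sum_comm]
      exact Finset.sum_congr rfl fun l _ => Finset.sum_congr rfl fun j _ => by ring
    rw [h3, h4, ih i, Finset.sum_congr rfl fun l _ => by rw [ih l]]
    have h5 : ∑ l, (b i l + c i l) * ((∏ m ∈ Finset.range k, (-(β + (m : R) * n))) * u l) =
        (∏ m ∈ Finset.range k, (-(β + (m : R) * n))) * (β * u i) := by
      have h6 := congrFun hu i
      rw [Matrix.mulVec, dotProduct, Pi.smul_apply, smul_eq_mul] at h6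
      rw [← h6, Finset.mul_sum]
      exact Finset.sum_congr rfl fun l _ => by rw [Matrix.add_apply]; ring
    rw [h5, Finset.prod_range_succ]
    ring

end

/-- Vanishing `p`-curvature: the eigenvalues at `0`, `1`, `∞` are fixed by Frobenius. -/
lemma frob_fixed {F : Type*} [Field F] {p : ℕ} [Fact p.Prime] [CharP F p] {r n : ℕ}
    {b c : Matrix (Fin r) (Fin r) F} {Q : ℕ → Matrix (Fin r) (Fin r) F[X]} (h : Rec n b c Q)
    (hQ : Q p = 0) {β : F} {u : Fin r → F} (hu0 : u ≠ 0)
    (hu : b.mulVec u = β • u ∨ c.mulVec u = β • u ∨ (b + c).mulVec u = β • u) : β ^ p = β := by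
  obtain ⟨i, hi⟩ := Function.ne_iff.mp hu0
  have hfix : (∃ m : ℕ, β + (m : F) * n = 0) → β ^ p = β := by
    rintro ⟨m, hm⟩
    have h1 : β = ((-((m : ℤ) * n) : ℤ) : F) := by
      push_cast
      linear_combination hm
    rw [h1]
    have h2 : ∀ z : ℤ, ((z : F)) ^ p = z := by
      intro z
      have h3 : ((z : ZMod p) ^ p : ZMod p) = z := ZMod.pow_card _
      have h4 := congrArg (ZMod.castHom (dvd_refl p) F) h3
      rw [map_pow, map_intCast] at h4
      exact h4
    exact h2 _
  rcases hu with hu | hu | hu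
  · have h1 := rec_zero h hu p i
    rw [hQ] at h1
    simp only [Matrix.zero_apply, eval_zero, zero_mul, Finset.sum_const_zero] at h1
    have h2 := (mul_eq_zero.mp h1.symm).resolve_right hi
    rw [Finset.prod_eq_zero_iff] at h2
    obtain ⟨m, _, hm⟩ := h2
    exact hfix ⟨m, hm⟩
  · have h1 := rec_one h hu p i
    rw [hQ] at h1
    simp only [Matrix.zero_apply, eval_zero, zero_mul, Finset.sum_const_zero] at h1
    have h2 := (mul_eq_zero.mp h1.symm).resolve_right hi
    rw [Finset.prod_eq_zero_iff] at h2
    obtain ⟨m, _, hm⟩ := h2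
    exact hfix ⟨m, neg_eq_zero.mp hm⟩
  · have h1 := rec_inf h hu p i
    rw [hQ] at h1
    simp only [Matrix.zero_apply, coeff_zero, zero_mul, Finset.sum_const_zero] at h1
    have h2 := (mul_eq_zero.mp h1.symm).resolve_right hi
    rw [Finset.prod_eq_zero_iff] at h2
    obtain ⟨m, _, hm⟩ := h2
    exact hfix ⟨m, neg_eq_zero.mp hm⟩

end Pool.Agent.X98.SY
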