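import Pool.Agent.X98.SY.Loc

set_option autoImplicit false

open Polynomial

namespace Pool.Agent.X98.SY

open Pool.Agent.W432.PC (ddx ddx_algebraMap ddx_X)

variable {k : Type*} [Field k] {r : ℕ}

/-- The equation for the numerators. -/
def ODE (B C : Matrix (Fin r) (Fin r) k) (a e : ℕ) (w : Fin r → k[X]) : Prop :=
  ∀ i, X * (X - 1) * derivative (w i) = ((a : k[X]) * (X - 1) + (e : k[X]) * X) * w i +
    ∑ j, ((X - 1) * Polynomial.C (B i j) + X * Polynomial.C (C i j)) * w j

lemma ode_iff {B C : Matrix (Fin r) (Fin r) k} {v : Fin r → RatFunc k} {a e : ℕ}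
    {w : Fin r → k[X]} (hw : ∀ i, algebraMap k[X] (RatFunc k) (X ^ a * (X - 1) ^ e) * v i =
      algebraMap k[X] (RatFunc k) (w i)) : Sys B C v ↔ ODE B C a e w := by
  have hg : algebraMap k[X] (RatFunc k) (X ^ a * (X - 1) ^ e) ≠ 0 := by
    rw [ne_eq, map_eq_zero_iff _ inj_alg]
    exact mul_ne_zero (pow_ne_zero _ X_ne_zero) (pow_ne_zero _ (X_sub_C_ne_zero (1 : k)))
  have hder : X * (X - 1) * derivative (X ^ a * (X - 1) ^ e : k[X]) =
      (X ^ a * (X - 1) ^ e) * ((a : k[X]) * (X - 1) + (e : k[X]) * X) := by
    have hd1 : derivative (X - 1 : k[X]) = 1 := by simp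
    simp only [derivative_mul, derivative_pow, derivative_X, hd1, mul_one]
    have e1 : ∀ (P : k[X]) (m : ℕ), (Polynomial.C (m : k)) * P ^ (m - 1) * P = (m : k[X]) * P ^ m := by
      intro P m
      rcases Nat.eq_zero_or_pos m with rfl | hm
      · simp
      · obtain ⟨m', rfl⟩ := Nat.exists_eq_succ_of_ne_zero hm.ne'
        simp only [Nat.succ_eq_add_one, Nat.add_sub_cancel, map_natCast]
        ring
    have e2 := e1 X a
    have e3 := e1 (X - 1) e
    linear_combination (X - 1) * ((X - 1) ^ e) * e2 + X * (X ^ a) * e3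
  rw [sys_clear]
  unfold ODE
  refine forall_congr' fun i => ?_
  have h2 := congrArg (ddx k) (hw i)
  rw [Derivation.leibniz, ddx_algebraMap, ddx_algebraMap, smul_eq_mul, smul_eq_mul] at h2
  have h3 : algebraMap k[X] (RatFunc k) (X ^ a * (X - 1) ^ e) *
      (algebraMap k[X] (RatFunc k) (X * (X - 1)) * ddx k (v i)) =
      algebraMap k[X] (RatFunc k) (X * (X - 1) * derivative (w i) -
        ((a : k[X]) * (X - 1) + (e : k[X]) * X) * w i) := by
    rw [map_sub, map_mul _ _ (derivative (w i)), ← h2, map_mul _ _ (w i), ← hw i, mul_add,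
      ← mul_assoc (algebraMap k[X] (RatFunc k) (X * (X - 1))) (v i)]
    have h4 : algebraMap k[X] (RatFunc k) (X * (X - 1)) * v i *
        algebraMap k[X] (RatFunc k) (derivative (X ^ a * (X - 1) ^ e)) =
        algebraMap k[X] (RatFunc k) ((a : k[X]) * (X - 1) + (e : k[X]) * X) *
          (algebraMap k[X] (RatFunc k) (X ^ a * (X - 1) ^ e) * v i) := by
      have h5 := congrArg (algebraMap k[X] (RatFunc k)) hder
      rw [map_mul _ (X * (X - 1)), map_mul _ (X ^ a * (X - 1) ^ e)] at h5
      linear_combination (v i) * h5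
    rw [h4]
    ring
  have h6 : algebraMap k[X] (RatFunc k) (X ^ a * (X - 1) ^ e) *
      ∑ j, algebraMap k[X] (RatFunc k) ((X - 1) * Polynomial.C (B i j) +
        X * Polynomial.C (C i j)) * v j =
      algebraMap k[X] (RatFunc k) (∑ j, ((X - 1) * Polynomial.C (B i j) +
        X * Polynomial.C (C i j)) * w j) := by
    rw [map_sum, Finset.mul_sum]
    refine Finset.sum_congr rfl fun j _ => ?_
    rw [map_mul _ _ (w j), ← hw j]
    ring
  constructor
  · intro h
    have h7 : algebraMap k[X] (RatFunc k) (X ^ a * (X - 1) ^ e) *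
        (algebraMap k[X] (RatFunc k) (X * (X - 1)) * ddx k (v i)) =
        algebraMap k[X] (RatFunc k) (X ^ a * (X - 1) ^ e) *
        ∑ j, algebraMap k[X] (RatFunc k) ((X - 1) * Polynomial.C (B i j) +
          X * Polynomial.C (C i j)) * v j := by rw [h]
    rw [h3, h6] at h7
    have h8 := inj_alg h7
    rw [sub_eq_iff_eq_add] at h8
    rw [h8]
    ring
  · intro h
    apply mul_left_cancel₀ hg
    rw [h3, h6]
    congr 1
    rw [h]
    ring

/-- The leading exponents are eigenvalues. -/
theorem struct {p : ℕ} [CharP k p] {B C : Matrix (Fin r) (Fin r) k} {v : Fin r → RatFunc k}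
    (hv : Sys B C v) (hv0 : v ≠ 0) {h : ℕ} (hh : ∀ i, ht (v i) ≤ h) (hp : r * h < p) :
    ∃ (a e d : ℕ) (w : Fin r → k[X]), a + e ≤ r * h ∧ d ≤ r * h + h ∧
      (∀ i, algebraMap k[X] (RatFunc k) (X ^ a * (X - 1) ^ e) * v i =
        algebraMap k[X] (RatFunc k) (w i)) ∧ (∀ i, (w i).natDegree ≤ d) ∧
      (a ≠ 0 → ∃ u : Fin r → k, u ≠ 0 ∧ B.mulVec u = (-(a : k)) • u) ∧
      (e ≠ 0 → ∃ u : Fin r → k, u ≠ 0 ∧ C.mulVec u = (-(e : k)) • u) ∧
      (∃ u : Fin r → k, u ≠ 0 ∧ (B + C).mulVec u = ((d : k) - a - e) • u) := by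
  classical
  obtain ⟨a, e, hae, hden⟩ := den_shape hv hh hp
  have h1 := fun j => (denom_dvd_iff (v j) _).mp ((hden (X ^ a * (X - 1) ^ e)).mp dvd_rfl j)
  choose w hw using h1
  have hode := (ode_iff hw).mp hv
  have hX1 : (X - 1 : k[X]) ≠ 0 := X_sub_C_ne_zero (1 : k)
  have hw0 : w ≠ 0 := by
    intro h0
    apply hv0
    ext1 i
    have h2 := hw i
    rw [h0, Pi.zero_apply, map_zero] at h2
    refine (mul_eq_zero.mp h2).resolve_left ?_
    rw [map_eq_zero_iff _ inj_alg]
    exact mul_ne_zero (pow_ne_zero _ X_ne_zero) (pow_ne_zero _ hX1)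
  have hdeg1 : (X ^ a * (X - 1) ^ e : k[X]).natDegree = a + e := by
    rw [natDegree_mul (pow_ne_zero _ X_ne_zero) (pow_ne_zero _ hX1), natDegree_X_pow,
      natDegree_pow]
    have : (X - 1 : k[X]).natDegree = 1 := natDegree_X_sub_C (1 : k)
    rw [this]
    ring
  -- a common step: if a prime `P` divides all numerators, the power can be lowered
  have hlow : ∀ g : k[X], g.natDegree < a + e → g ≠ 0 →
      ¬ ∀ i, ∃ w' : k[X], algebraMap k[X] (RatFunc k) g * v i = algebraMap k[X] (RatFunc k) w' := by
    intro g hg hg0 hall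
    have h3 : X ^ a * (X - 1) ^ e ∣ g := (hden g).mpr fun i => (denom_dvd_iff _ _).mpr (hall i)
    have h4 := natDegree_le_of_dvd h3 hg0
    omega
  set d := Finset.univ.sup fun i => (w i).natDegree with hd
  have hwd : ∀ i, (w i).natDegree ≤ d := fun i =>
    Finset.le_sup (f := fun i => (w i).natDegree) (Finset.mem_univ i)
  refine ⟨a, e, d, w, hae, ?_, hw, hwd, ?_, ?_, ?_⟩
  · refine Finset.sup_le fun i _ => ?_
    have hdn : algebraMap k[X] (RatFunc k) (v i).denom ≠ 0 := by
      rw [ne_eq, map_eq_zero_iff _ inj_alg]; exact (v i).denom_ne_zero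
    have hy : v i * algebraMap k[X] (RatFunc k) (v i).denom =
        algebraMap k[X] (RatFunc k) (v i).num := by
      have := RatFunc.num_div_denom (v i)
      rw [div_eq_iff hdn] at this
      exact this.symm
    have h3 : X ^ a * (X - 1) ^ e * (v i).num = w i * (v i).denom := by
      apply inj_alg
      rw [map_mul, map_mul (algebraMap k[X] (RatFunc k)) (w i), ← hy, ← hw i]
      ring
    by_cases h0 : w i = 0
    · rw [h0, natDegree_zero]; omega
    have h4 : (w i * (v i).denom).natDegree = (w i).natDegree + (v i).denom.natDegree :=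
      natDegree_mul h0 (v i).denom_ne_zero
    have h5 : (X ^ a * (X - 1) ^ e * (v i).num).natDegree ≤ (a + e) + (v i).num.natDegree := by
      refine natDegree_mul_le.trans ?_
      rw [hdeg1]
    rw [h3, h4] at h5
    have h6 : (v i).num.natDegree ≤ h := (le_max_left _ _).trans (hh i)
    omega
  · intro ha
    refine ⟨fun i => (w i).eval 0, ?_, ?_⟩
    · intro h0
      obtain ⟨a', rfl⟩ := Nat.exists_eq_succ_of_ne_zero ha
      apply hlow (X ^ a' * (X - 1) ^ e) ?_
        (mul_ne_zero (pow_ne_zero _ X_ne_zero) (pow_ne_zero _ hX1))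
      · intro i
        have h3 : (w i).eval 0 = 0 := congrFun h0 i
        obtain ⟨w', hw'⟩ : X ∣ w i := by
          rw [X_dvd_iff, coeff_zero_eq_eval_zero]; exact h3
        refine ⟨w', ?_⟩
        have h4 := hw i
        rw [hw', Nat.succ_eq_add_one, pow_succ, map_mul _ X w'] at h4
        apply mul_left_cancel₀ (show algebraMap k[X] (RatFunc k) X ≠ 0 by
          rw [RatFunc.algebraMap_X]; exact X_ne)
        rw [← h4]
        simp only [map_mul]
        ring
      · have h5 : (X ^ a' * (X - 1) ^ e : k[X]).natDegree = a' + e := by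
          rw [natDegree_mul (pow_ne_zero _ X_ne_zero) (pow_ne_zero _ hX1), natDegree_X_pow,
            natDegree_pow]
          have : (X - 1 : k[X]).natDegree = 1 := natDegree_X_sub_C (1 : k)
          rw [this]
          ring
        omega
    · ext i
      have h3 := congrArg (fun g => g.eval 0) (hode i)
      simp only [eval_mul, eval_X, eval_sub, eval_one, zero_mul, eval_add, eval_natCast, mul_zero,
        add_zero, zero_sub, eval_finsetSum, eval_C] at h3
      rw [Matrix.mulVec, dotProduct, Pi.smul_apply, smul_eq_mul]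
      have h4 : ∑ j, (-1 * B i j) * (w j).eval 0 = -∑ j, B i j * (w j).eval 0 := by
        rw [← Finset.sum_neg_distrib]
        exact Finset.sum_congr rfl fun j _ => by ring
      rw [h4] at h3
      linear_combination h3
  · intro he
    refine ⟨fun i => (w i).eval 1, ?_, ?_⟩
    · intro h0
      obtain ⟨e', rfl⟩ := Nat.exists_eq_succ_of_ne_zero he
      apply hlow (X ^ a * (X - 1) ^ e') ?_
        (mul_ne_zero (pow_ne_zero _ X_ne_zero) (pow_ne_zero _ hX1))
      · intro i
        have h3 : (w i).eval 1 = 0 := congrFun h0 i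
        obtain ⟨w', hw'⟩ : (X - 1) ∣ w i := by
          have h4 : (X - Polynomial.C 1) ∣ w i := dvd_iff_isRoot.mpr h3
          rwa [map_one] at h4
        refine ⟨w', ?_⟩
        have h4 := hw i
        rw [hw', Nat.succ_eq_add_one, pow_succ, map_mul _ (X - 1) w'] at h4
        apply mul_left_cancel₀ (show algebraMap k[X] (RatFunc k) (X - 1) ≠ 0 by
          rw [ne_eq, map_eq_zero_iff _ inj_alg]; exact hX1)
        rw [← h4]
        simp only [map_mul]
        ring
      · have h5 : (X ^ a * (X - 1) ^ e' : k[X]).natDegree = a + e' := by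
          rw [natDegree_mul (pow_ne_zero _ X_ne_zero) (pow_ne_zero _ hX1), natDegree_X_pow,
            natDegree_pow]
          have : (X - 1 : k[X]).natDegree = 1 := natDegree_X_sub_C (1 : k)
          rw [this]
          ring
        omega
    · ext i
      have h3 := congrArg (fun g => g.eval 1) (hode i)
      simp only [eval_mul, eval_X, eval_sub, eval_one, sub_self, mul_zero, zero_mul, eval_add,
        eval_natCast, zero_add, eval_finsetSum, eval_C, mul_one, one_mul] at h3
      rw [Matrix.mulVec, dotProduct, Pi.smul_apply, smul_eq_mul]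
      linear_combination -h3
  · refine ⟨fun i => (w i).coeff d, ?_, ?_⟩
    · intro h0
      by_cases hr : ∃ i, w i ≠ 0
      · obtain ⟨i, hi⟩ := hr
        have hne : (Finset.univ : Finset (Fin r)).Nonempty := ⟨i, Finset.mem_univ _⟩
        obtain ⟨i₀, _, hi₀⟩ := Finset.exists_mem_eq_sup _ hne fun i => (w i).natDegree
        have h3 : (w i₀).coeff (w i₀).natDegree = 0 := by
          have := congrFun h0 i₀
          rw [hd, hi₀] at this
          exact this
        have h4 : w i₀ = 0 := leadingCoeff_eq_zero.mp h3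
        have h5 : d = 0 := by rw [hd, hi₀, h4, natDegree_zero]
        have h6 := hwd i
        rw [h5] at h6
        apply hi
        have h7 : (w i).coeff 0 = 0 := by
          have := congrFun h0 i
          rw [h5] at this
          exact this
        rw [eq_C_of_natDegree_le_zero h6, h7, map_zero]
      · push Not at hr
        exact hw0 (funext hr)
    · ext i
      have h3 := congrArg (fun g => g.coeff (d + 1)) (hode i)
      have hz : ∀ j, (w j).coeff (d + 1) = 0 := fun j =>
        coeff_eq_zero_of_natDegree_lt (by have := hwd j; omega)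
      have hc1 : (X * (X - 1) * derivative (w i)).coeff (d + 1) = (d : k) * (w i).coeff d := by
        have h4 : X * (X - 1) * derivative (w i) = X * (X * derivative (w i)) - X * derivative (w i) := by
          ring
        rw [h4, coeff_sub, coeff_X_mul, coeff_X_mul]
        have h5 : (derivative (w i)).coeff d = 0 := by
          rw [coeff_derivative, hz i, zero_mul]
        rw [h5, sub_zero]
        rcases Nat.eq_zero_or_pos d with h6 | h6
        · rw [h6]; simp
        · obtain ⟨d', hd'⟩ := Nat.exists_eq_succ_of_ne_zero h6.ne'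
          rw [hd', Nat.succ_eq_add_one, coeff_X_mul, coeff_derivative]
          push_cast
          ring
      have hc2 : (((a : k[X]) * (X - 1) + (e : k[X]) * X) * w i).coeff (d + 1) =
          ((a : k) + e) * (w i).coeff d := by
        have h4 : ((a : k[X]) * (X - 1) + (e : k[X]) * X) * w i =
            Polynomial.C ((a : k) + e) * (X * w i) - Polynomial.C (a : k) * w i := by
          rw [map_add, map_natCast, map_natCast]
          ring
        rw [h4, coeff_sub, coeff_C_mul, coeff_C_mul, coeff_X_mul, hz i]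
        ring
      have hc3 : (∑ j, ((X - 1) * Polynomial.C (B i j) + X * Polynomial.C (C i j)) * w j).coeff
          (d + 1) = ∑ j, (B i j + C i j) * (w j).coeff d := by
        rw [finsetSum_coeff]
        refine Finset.sum_congr rfl fun j _ => ?_
        have h4 : ((X - 1) * Polynomial.C (B i j) + X * Polynomial.C (C i j)) * w j =
            Polynomial.C (B i j + C i j) * (X * w j) - Polynomial.C (B i j) * w j := by
          rw [map_add]
          ring
        rw [h4, coeff_sub, coeff_C_mul, coeff_C_mul, coeff_X_mul, hz j]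
        ring
      simp only [coeff_add] at h3
      rw [hc1, hc2, hc3] at h3
      rw [Matrix.mulVec, dotProduct, Pi.smul_apply, smul_eq_mul]
      simp only [Matrix.add_apply]
      linear_combination -h3

end Pool.Agent.X98.SY
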