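import Pool.Agent.X98.SY.Fin

set_option autoImplicit false

open Polynomial NumberField

namespace Pool.Agent.X98.SY

open Pool.Agent.W432.PC (ddx ddx_algebraMap ddx_X)
open Pool.Agent.W432.HK (exists_frob_point split_rat)

universe u v

/-- All eigenvalues of the matrix are rational. -/
def RatEigs {K : Type u} [Field K] [NumberField K] {r : ℕ} (m : Matrix (Fin r) (Fin r) (𝓞 K)) :
    Prop :=
  ∀ (σ : K →+* AlgebraicClosure ℚ) (β : AlgebraicClosure ℚ),
    (m.charpoly.map (σ.comp (algebraMap (𝓞 K) K))).eval β = 0 →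
      ∃ q : ℚ, (q : AlgebraicClosure ℚ) = β

section

variable {K : Type u} [Field K] [NumberField K] {r : ℕ}

lemma ratEigs_eig {m : Matrix (Fin r) (Fin r) (𝓞 K)} (h : RatEigs m) : Eig.{u, v} m 1 :=
  eig_of_rat m (IsAlgClosed.lift : K →ₐ[ℚ] AlgebraicClosure ℚ).toRingHom (h _)

/-- Roots of the characteristic polynomial and eigenvectors. -/
lemma root_iff {F : Type*} [Field F] (τ : 𝓞 K →+* F) (m : Matrix (Fin r) (Fin r) (𝓞 K)) (β : F) :
    (m.charpoly.map τ).eval β = 0 ↔ ∃ w : Fin r → F, w ≠ 0 ∧ (m.map τ).mulVec w = β • w := by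
  rw [← Matrix.charpoly_map, Matrix.eval_charpoly, ← Matrix.exists_mulVec_eq_zero_iff]
  refine exists_congr fun w => and_congr_right fun _ => ?_
  rw [Matrix.sub_mulVec, sub_eq_zero]
  have h1 : (Matrix.scalar (Fin r) β).mulVec w = β • w := by
    ext i
    simp
  rw [h1]
  exact eq_comm

/-- Affine functions of the matrix. -/
lemma ratEigs_affine {m : Matrix (Fin r) (Fin r) (𝓞 K)} (h : RatEigs m) {N : ℕ} (hN : 0 < N)
    (j : ℤ) : RatEigs ((N : 𝓞 K) • m - (j : 𝓞 K) • (1 : Matrix (Fin r) (Fin r) (𝓞 K))) := by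
  intro σ β hβ
  rw [root_iff] at hβ
  obtain ⟨w, hw0, hw⟩ := hβ
  have hNq : ((N : ℕ) : AlgebraicClosure ℚ) ≠ 0 := by exact_mod_cast hN.ne'
  have h1 : (m.map (σ.comp (algebraMap (𝓞 K) K))).mulVec w = ((β + j) / N) • w := by
    ext i
    have h2 := congrFun hw i
    rw [Matrix.mulVec, dotProduct, Pi.smul_apply, smul_eq_mul] at h2 ⊢
    have h3 : ∀ l, ((((N : 𝓞 K) • m - (j : 𝓞 K) • (1 : Matrix (Fin r) (Fin r) (𝓞 K))).map
        (σ.comp (algebraMap (𝓞 K) K))) i l) = N * (m.map (σ.comp (algebraMap (𝓞 K) K))) i l -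
          j * (1 : Matrix (Fin r) (Fin r) (AlgebraicClosure ℚ)) i l := by
      intro l
      rw [Matrix.map_apply, Matrix.sub_apply, Matrix.smul_apply, Matrix.smul_apply, map_sub,
        smul_eq_mul, smul_eq_mul, map_mul, map_mul, map_natCast, map_intCast, Matrix.map_apply,
        Matrix.one_apply, Matrix.one_apply]
      split_ifs <;> simp
    simp only [h3, sub_mul, Finset.sum_sub_distrib] at h2
    have h4 : ∑ l, (j : AlgebraicClosure ℚ) *
        (1 : Matrix (Fin r) (Fin r) (AlgebraicClosure ℚ)) i l * w l = j * w i := by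
      rw [Finset.sum_eq_single i]
      · simp
      · intro l _ hl
        rw [Matrix.one_apply_ne hl.symm]; simp
      · simp
    have h5 : ∑ l, (N : AlgebraicClosure ℚ) * (m.map (σ.comp (algebraMap (𝓞 K) K))) i l * w l =
        N * ∑ l, (m.map (σ.comp (algebraMap (𝓞 K) K))) i l * w l := by
      rw [Finset.mul_sum]
      exact Finset.sum_congr rfl fun l _ => by ring
    rw [h4, h5] at h2
    field_simp
    linear_combination h2
  obtain ⟨q, hq⟩ := h σ _ ((root_iff _ m _).mpr ⟨w, hw0, h1⟩)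
  refine ⟨q * N - j, ?_⟩
  have h2 : β = ((β + j) / N) * N - j := by field_simp; ring
  rw [h2, ← hq]
  push_cast
  ring

/-- Eigenvalues modulo `p` are congruent to finitely many rational numbers. -/
theorem eig_form {m : Matrix (Fin r) (Fin r) (𝓞 K)} (h : RatEigs m) : ∃ (N : ℤ) (A : ℕ), N ≠ 0 ∧
    ∀ (y : ℤ) (p : ℕ) (k : Type v) [Field k] [CharP k p] (φ : 𝓞 K →+* k) (w : Fin r → k),
      w ≠ 0 → (m.map φ).mulVec w = (y : k) • w → ∃ a : ℤ, a.natAbs ≤ A ∧ (p : ℤ) ∣ N * y - a := by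
  classical
  let σ : K →+* AlgebraicClosure ℚ := (IsAlgClosed.lift : K →ₐ[ℚ] AlgebraicClosure ℚ).toRingHom
  set τ := σ.comp (algebraMap (𝓞 K) K) with hτ
  have hτinj : Function.Injective τ := σ.injective.comp RingOfIntegers.coe_injective
  have hdeg : (m.charpoly.map τ).natDegree = r := by
    rw [(m.charpoly_monic).natDegree_map, Matrix.charpoly_natDegree_eq_dim, Fintype.card_fin]
  obtain ⟨lam, hlam⟩ := split_rat (m.charpoly.map τ) hdeg (fun β _ hβ => h σ β hβ)
  rw [((m.charpoly_monic).map τ).leadingCoeff, map_one, one_mul] at hlam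
  obtain ⟨N, hN⟩ := IsLocalization.exist_integer_multiples_of_finset (nonZeroDivisors ℤ)
    (Finset.univ.image lam)
  have h1 : ∀ l, ∃ a : ℤ, (a : ℚ) = (N : ℤ) * lam l := by
    intro l
    obtain ⟨a, ha⟩ := hN (lam l) (Finset.mem_image.mpr ⟨l, Finset.mem_univ _, rfl⟩)
    refine ⟨a, ?_⟩
    have h2 : (a : ℚ) = algebraMap ℤ ℚ a := rfl
    rw [h2, ha, Algebra.smul_def]
    rfl
  choose a ha using h1
  have hN0 : (N : ℤ) ≠ 0 := nonZeroDivisors.ne_zero N.2
  have hprod : ∀ y : ℤ, ((N : ℤ) : 𝓞 K) ^ r * m.charpoly.eval (y : 𝓞 K) =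
      ∏ l, ((((N : ℤ) * y - a l : ℤ)) : 𝓞 K) := by
    intro y
    apply hτinj
    have h2 : τ (m.charpoly.eval (y : 𝓞 K)) = (m.charpoly.map τ).eval (y : AlgebraicClosure ℚ) := by
      rw [eval_map, ← map_intCast τ y, eval₂_at_apply]
    rw [map_mul, h2, hlam, eval_prod, map_prod, map_pow, map_intCast]
    have h3 : (((N : ℤ) : AlgebraicClosure ℚ)) ^ r = ∏ _l : Fin r, ((N : ℤ) : AlgebraicClosure ℚ) := by
      simp
    rw [h3, ← Finset.prod_mul_distrib]
    refine Finset.prod_congr rfl fun l _ => ?_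
    rw [map_intCast, eval_sub, eval_X, eval_C]
    have h4 : ((a l : ℤ) : AlgebraicClosure ℚ) = ((N : ℤ) : AlgebraicClosure ℚ) *
        ((lam l : ℚ) : AlgebraicClosure ℚ) := by
      have h5 : (((a l : ℤ) : ℚ) : AlgebraicClosure ℚ) =
          ((((N : ℤ) : ℚ) * lam l : ℚ) : AlgebraicClosure ℚ) := by rw [ha l]
      push_cast at h5
      exact h5
    push_cast
    rw [h4]
    ring
  refine ⟨N, ∑ l, (a l).natAbs, hN0, fun y p k _ _ φ w hw0 hw => ?_⟩
  have h5 : φ (m.charpoly.eval (y : 𝓞 K)) = 0 := by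
    have h7 : φ (m.charpoly.eval (y : 𝓞 K)) = (m.charpoly.map φ).eval (y : k) := by
      rw [eval_map, ← map_intCast φ y, eval₂_at_apply]
    rw [h7]
    exact (root_iff φ m _).mpr ⟨w, hw0, hw⟩
  have h6 := congrArg φ (hprod y)
  rw [map_mul, h5, mul_zero, map_prod] at h6
  obtain ⟨l, _, hl⟩ := Finset.prod_eq_zero_iff.mp h6.symm
  rw [map_intCast] at hl
  exact ⟨a l, Finset.single_le_sum (f := fun l => (a l).natAbs) (fun _ _ => Nat.zero_le _)
    (Finset.mem_univ l), (CharP.intCast_eq_zero_iff k p _).mp hl⟩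

end

section

variable {k : Type*} [Field k] {r : ℕ}

lemma ddx_X' : ddx k RatFunc.X = 1 := by
  rw [← RatFunc.algebraMap_X, ddx_algebraMap, derivative_X, map_one]

/-- Twisting a system by powers of `t` and `t - 1`. -/
lemma sys_twist {B C : Matrix (Fin r) (Fin r) k} {y : Fin r → RatFunc k} (h : Sys B C y)
    (α β : ℤ) : Sys (B + (α : k) • (1 : Matrix (Fin r) (Fin r) k))
      (C + (β : k) • (1 : Matrix (Fin r) (Fin r) k))
      (fun i => RatFunc.X ^ α * (RatFunc.X - 1) ^ β * y i) := by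
  classical
  intro i
  have hX : (RatFunc.X : RatFunc k) ≠ 0 := X_ne
  have hX1 : (RatFunc.X - 1 : RatFunc k) ≠ 0 := X1_ne
  have h1 := h i
  have hd1 : ddx k (RatFunc.X ^ α) = (α : RatFunc k) * RatFunc.X ^ (α - 1) := by
    rw [Derivation.leibniz_zpow, ddx_X', zsmul_eq_mul, smul_eq_mul, mul_one]
  have hd2 : ddx k ((RatFunc.X - 1) ^ β) = (β : RatFunc k) * (RatFunc.X - 1) ^ (β - 1) := by
    rw [Derivation.leibniz_zpow, map_sub, ddx_X', Derivation.map_one_eq_zero, sub_zero,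
      zsmul_eq_mul, smul_eq_mul, mul_one]
  have hz1 : (RatFunc.X : RatFunc k) ^ α = RatFunc.X ^ (α - 1) * RatFunc.X := by
    rw [← zpow_add_one₀ hX, sub_add_cancel]
  have hz2 : (RatFunc.X - 1 : RatFunc k) ^ β = (RatFunc.X - 1) ^ (β - 1) * (RatFunc.X - 1) := by
    rw [← zpow_add_one₀ hX1, sub_add_cancel]
  have h2 : ∀ j, (RatFunc.C ((B + (α : k) • (1 : Matrix (Fin r) (Fin r) k)) i j) / RatFunc.X +
      RatFunc.C ((C + (β : k) • (1 : Matrix (Fin r) (Fin r) k)) i j) / (RatFunc.X - 1)) *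
        (RatFunc.X ^ α * (RatFunc.X - 1) ^ β * y j) =
      RatFunc.X ^ α * (RatFunc.X - 1) ^ β *
        ((RatFunc.C (B i j) / RatFunc.X + RatFunc.C (C i j) / (RatFunc.X - 1)) * y j) +
      (if i = j then ((α : RatFunc k) / RatFunc.X + (β : RatFunc k) / (RatFunc.X - 1)) *
        (RatFunc.X ^ α * (RatFunc.X - 1) ^ β * y j) else 0) := by
    intro j
    rw [Matrix.add_apply, Matrix.add_apply, Matrix.smul_apply, Matrix.smul_apply,
      Matrix.one_apply, map_add, map_add]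
    split_ifs with hij
    · rw [smul_eq_mul, smul_eq_mul, mul_one, mul_one, map_intCast, map_intCast]
      ring
    · rw [smul_zero, smul_zero, map_zero]
      ring
  rw [Finset.sum_congr rfl fun j _ => h2 j, Finset.sum_add_distrib, ← Finset.mul_sum, ← h1,
    Finset.sum_ite_eq, if_pos (Finset.mem_univ _), Derivation.leibniz, Derivation.leibniz, hd1, hd2]
  simp only [smul_eq_mul]
  have h3 : (α : RatFunc k) * RatFunc.X ^ (α - 1) = (α : RatFunc k) / RatFunc.X * RatFunc.X ^ α := by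
    rw [hz1]; field_simp
  have h4 : (β : RatFunc k) * (RatFunc.X - 1) ^ (β - 1) =
      (β : RatFunc k) / (RatFunc.X - 1) * (RatFunc.X - 1) ^ β := by
    rw [hz2]; field_simp
  rw [h3, h4]
  ring

/-- Heights of quotients. -/
lemma ht_div_le {P Q : k[X]} (hP : P ≠ 0) (hQ : Q ≠ 0) {d : ℕ} (h1 : P.natDegree ≤ d)
    (h2 : Q.natDegree ≤ d) :
    ht (algebraMap k[X] (RatFunc k) P / algebraMap k[X] (RatFunc k) Q) ≤ d := by
  refine max_le ?_ ?_
  · exact (natDegree_le_of_dvd (RatFunc.num_div_dvd P hQ) hP).trans h1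
  · exact (natDegree_le_of_dvd (RatFunc.denom_div_dvd P Q) hQ).trans h2

lemma ht_twist (g : k[X]) (α β : ℤ) {d : ℕ} (hd : g.natDegree ≤ d) :
    ht (RatFunc.X ^ α * (RatFunc.X - 1) ^ β * algebraMap k[X] (RatFunc k) g) ≤
      α.natAbs + β.natAbs + d := by
  by_cases hg : g = 0
  · rw [hg, map_zero, mul_zero]
    unfold ht
    simp
  have hX : (RatFunc.X : RatFunc k) ≠ 0 := X_ne
  have hX1 : (RatFunc.X - 1 : RatFunc k) ≠ 0 := X1_ne
  have hX1' : (X - 1 : k[X]) ≠ 0 := X_sub_C_ne_zero (1 : k)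
  have h1 : RatFunc.X ^ α * (RatFunc.X - 1) ^ β * algebraMap k[X] (RatFunc k) g =
      algebraMap k[X] (RatFunc k) (X ^ α.toNat * (X - 1) ^ β.toNat * g) /
        algebraMap k[X] (RatFunc k) (X ^ (-α).toNat * (X - 1) ^ (-β).toNat) := by
    have hz : ∀ (x : RatFunc k) (hx : x ≠ 0) (z : ℤ), x ^ z = x ^ z.toNat / x ^ (-z).toNat := by
      intro x hx z
      rw [eq_div_iff (pow_ne_zero _ hx), ← zpow_natCast, ← zpow_natCast, ← zpow_add₀ hx]
      congr 1
      omega
    rw [hz _ hX α, hz _ hX1 β]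
    simp only [map_mul, map_pow, map_sub, map_one, RatFunc.algebraMap_X]
    field_simp
  have hdeg1 : ∀ m : ℕ, ((X - 1 : k[X]) ^ m).natDegree = m := by
    intro m
    have : (X - 1 : k[X]).natDegree = 1 := natDegree_X_sub_C (1 : k)
    rw [natDegree_pow, this, mul_one]
  rw [h1]
  refine ht_div_le (mul_ne_zero (mul_ne_zero (pow_ne_zero _ X_ne_zero) (pow_ne_zero _ hX1')) hg)
    (mul_ne_zero (pow_ne_zero _ X_ne_zero) (pow_ne_zero _ hX1')) ?_ ?_
  · refine natDegree_mul_le.trans ?_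
    have h2 : (X ^ α.toNat * (X - 1) ^ β.toNat : k[X]).natDegree ≤ α.toNat + β.toNat := by
      refine natDegree_mul_le.trans ?_
      rw [hdeg1, natDegree_X_pow]
    omega
  · refine natDegree_mul_le.trans ?_
    rw [hdeg1, natDegree_X_pow]
    omega

end

end Pool.Agent.X98.SY
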